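import Pool.Agent.Helper8.KS.Basic

set_option autoImplicit false

/-!
# Small ball estimates with explicit constants
-/

open MeasureTheory

open private mid_Ici midLC_neg tail_geom room mean_le sq_layer neg_real spread_pt from
  Pool.Agent.Helper8.KS.OneDim

namespace Pool.Agent.Helper8.KS

/-- (2.3) small ball: an interval of length `w` has mass at most `C w / σ`. -/
theorem oneDim_small_ballX : ∀ (ν : Measure ℝ) [IsProbabilityMeasure ν],
    MidLC ν → (∃ R : ℝ, ∀ᵐ z ∂ν, |z| ≤ R) → ∀ (m σ : ℝ), m = ∫ z, z ∂ν → 0 < σ →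
    σ ^ 2 = ∫ z, (z - m) ^ 2 ∂ν → ∀ (a w : ℝ), 0 < w →
    ν.real (Set.Icc a (a + w)) ≤ 320 * w / σ := by
  intro ν _ hν hb m σ hm hσ hvar a w hw
  have hneg : IsProbabilityMeasure (ν.map (fun z => -z)) :=
    Measure.isProbabilityMeasure_map measurable_neg.aemeasurable
  rcases lt_or_ge (σ / 4) (2 * w) with hbig | hsmall
  · refine le_trans measureReal_le_one ?_
    rw [le_div_iff₀ hσ]
    linarith
  -- k = floor
  set k := ⌊(σ / 4) / (2 * w)⌋₊ with hk
  have hk1 : (k : ℝ) * (2 * w) ≤ σ / 4 := by
    rw [← le_div_iff₀ (by positivity)]; exact Nat.floor_le (by positivity)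
  have hk2 : σ / 4 < (k + 1) * (2 * w) := by
    rw [← div_lt_iff₀ (by positivity)]; exact Nat.lt_floor_add_one _
  have hk3 : 1 ≤ k := by
    rw [hk, Nat.one_le_floor_iff, le_div_iff₀ (by positivity)]
    linarith
  have hk4 : (1 : ℝ) ≤ k := by exact_mod_cast hk3
  have hfin : 1 / (1 / 20 * (k : ℝ)) ≤ 320 * w / σ := by
    rw [div_le_div_iff₀ (by positivity) hσ]
    nlinarith
  rcases spread_pt hν hb m σ hm hσ hvar a with h | h
  · have h1 := room hν a (2 * w) (1 / 20) (by positivity) (by norm_num) k hk3
      (le_trans h (measureReal_mono (Set.Ici_subset_Ici.2 (by linarith)) (by finiteness)))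
    refine le_trans (measureReal_mono ?_ (by finiteness)) (le_trans h1 hfin)
    intro z hz
    simp only [Set.mem_Icc, Set.mem_Ico] at *
    constructor <;> linarith
  · have h1 := room (midLC_neg hν) (-a - w) (2 * w) (1 / 20) (by positivity) (by norm_num) k hk3
      (by
        rw [neg_real measurableSet_Ici]
        refine le_trans h (measureReal_mono ?_ (by finiteness))
        intro z hz
        simp only [Set.mem_Iic, Set.mem_ofPred_eq, Set.mem_Ici] at *
        linarith)
    rw [neg_real measurableSet_Ico] at h1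
    refine le_trans (measureReal_mono ?_ (by finiteness)) (le_trans h1 hfin)
    intro z hz
    simp only [Set.mem_Icc, Set.mem_Ico, Set.mem_ofPred_eq] at *
    constructor <;> linarith

/-- (2.4) nonnegative variables. -/
theorem oneDim_nonnegX : ∀ (ν : Measure ℝ) [IsProbabilityMeasure ν],
    MidLC ν → (∃ R : ℝ, ∀ᵐ z ∂ν, |z| ≤ R) → (∀ᵐ z ∂ν, 0 ≤ z) → ∀ (m : ℝ), m = ∫ z, z ∂ν → 0 < m →
    (∫ z, (z - m) ^ 2 ∂ν ≤ (7 * m) ^ 2) ∧
    ∀ a : ℝ, 0 < a → ν.real (Set.Iic (a * m)) ≤ 16 * a := by
  intro ν _ hν hb hnn m hm hm0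
  have hb' := hb
  obtain ⟨R, hR⟩ := hb
  have hint1 : Integrable (fun z : ℝ => z) ν := by
    refine Integrable.of_bound (by fun_prop) R ?_
    filter_upwards [hR] with z hz
    rwa [Real.norm_eq_abs]
  have hG0 : ν.real (Set.Ici 0) = 1 := by
    rw [measureReal_def, (mem_ae_iff_prob_eq_one measurableSet_Ici).1 hnn]
    simp
  have hmark : ν.real (Set.Ici (2 * m)) ≤ 1 / 2 := by
    have h1 := mul_meas_ge_le_integral_of_nonneg hnn hint1 (2 * m)
    rw [← hm] at h1
    have h2 : 2 * m * ν.real (Set.Ici (2 * m)) ≤ 2 * m * (1 / 2) := by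
      refine le_trans h1 (le_of_eq (by ring))
    exact le_of_mul_le_mul_left h2 (by positivity)
  constructor
  · -- second moment
    have hlay : ∀ k : ℕ, ν.real {z | (k : ℝ) * (2 * m) ≤ |z|} ≤ 1 * (1 / 2) ^ k := by
      intro k
      have h1 := tail_geom hν 0 (2 * m) (1 / 2) (by positivity) (by norm_num)
        (by rw [zero_add, hG0]; linarith) k
      rw [zero_add, hG0, mul_one] at h1
      rw [one_mul]
      refine le_trans (le_of_eq ?_) h1
      apply measureReal_congr
      filter_upwards [hnn] with z hz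
      apply propext
      show (k : ℝ) * (2 * m) ≤ |z| ↔ (k : ℝ) * (2 * m) ≤ z
      rw [abs_of_nonneg hz]
    have h1 := sq_layer (ν := ν) (fun z => |z|) (by fun_prop) (fun z => abs_nonneg _)
      ⟨R, hR⟩ (2 * m) 1 (1 / 2) (by positivity) (by norm_num) (by norm_num)
      (by norm_num) hlay
    simp only [sq_abs] at h1
    have hint2 : Integrable (fun z : ℝ => z ^ 2) ν := by
      refine Integrable.of_bound (by fun_prop) (R ^ 2) ?_
      filter_upwards [hR] with z hz
      rw [Real.norm_eq_abs, abs_pow]
      exact pow_le_pow_left₀ (abs_nonneg _) hz 2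
    have h2 : ∫ z, (z - m) ^ 2 ∂ν = ∫ z, z ^ 2 ∂ν - m ^ 2 := by
      have e : (fun z : ℝ => (z - m) ^ 2) = fun z => z ^ 2 + ((-(2 * m)) * z + m ^ 2) := by
        ext z; ring
      have hlin : Integrable (fun z : ℝ => (-(2 * m)) * z + m ^ 2) ν :=
        (hint1.const_mul _).add (integrable_const _)
      rw [e, integral_add hint2 hlin,
        integral_add (hint1.const_mul _) (integrable_const _), integral_const_mul, ← hm,
        integral_const]
      simp
      ring
    rw [h2]
    norm_num at h1
    nlinarith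
  · intro a ha
    -- half of the mass is above m / 2
    have hhalf : 1 / 2 ≤ ν.real (Set.Ici (m / 2)) := by
      by_contra hcon
      push Not at hcon
      set q := ν.real (Set.Ici (m / 2)) with hq
      have hq0 : 0 ≤ q := measureReal_nonneg
      have h1 := mean_le (ν := ν) hb' hnn (m / 2) q (by positivity) hq0 (by linarith) (by
        intro k
        have h1 := tail_geom hν 0 (m / 2) q (by positivity) hq0
          (by rw [zero_add, hG0, mul_one]) k
        rw [zero_add, hG0, mul_one] at h1
        exact h1)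
      rw [← hm, le_div_iff₀ (by linarith)] at h1
      nlinarith
    rcases lt_or_ge (1 / 4) a with hbig | hsmall
    · refine le_trans measureReal_le_one ?_
      linarith
    set k := ⌊1 / (4 * a)⌋₊ with hk
    have hk1 : (k : ℝ) * (4 * a) ≤ 1 := by
      rw [← le_div_iff₀ (by positivity)]; exact Nat.floor_le (by positivity)
    have hk2 : 1 < ((k : ℝ) + 1) * (4 * a) := by
      rw [← div_lt_iff₀ (by positivity)]; exact Nat.lt_floor_add_one _
    have hk3 : 1 ≤ k := by
      rw [hk, Nat.one_le_floor_iff, le_div_iff₀ (by positivity)]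
      linarith
    have hk4 : (1 : ℝ) ≤ k := by exact_mod_cast hk3
    have h1 := room hν 0 (2 * (a * m)) (1 / 2) (by positivity) (by norm_num) k hk3
      (le_trans hhalf (measureReal_mono (Set.Ici_subset_Ici.2 (by nlinarith)) (by finiteness)))
    have h2 : ν.real (Set.Iic (a * m)) ≤ ν.real (Set.Ico 0 (0 + 2 * (a * m))) := by
      rw [measureReal_def, measureReal_def]
      apply ENNReal.toReal_mono (by finiteness)
      apply measure_mono_ae
      filter_upwards [hnn] with z hz hz1
      have hz2 : z ≤ a * m := hz1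
      have : 0 < a * m := by positivity
      show 0 ≤ z ∧ z < 0 + 2 * (a * m)
      constructor
      · exact hz
      · linarith
    refine le_trans h2 (le_trans h1 ?_)
    rw [div_le_iff₀ (by positivity)]
    nlinarith


end Pool.Agent.Helper8.KS

open Pool.Agent.Helper1.Balance

namespace Pool.Agent.Helper8.KS

variable {n : ℕ} {r : Fin n → Fin n → Prop} {top : Fin n}

namespace Model

lemma meas_diffX (x y : Fin n) : Measurable (fun t : Fin n → ℝ => t x - t y) :=
  (measurable_pi_apply x).sub (measurable_pi_apply y)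

/-- the law of `t x - t y` -/
noncomputable def lawX (M : Model r top) (x y : Fin n) : Measure ℝ :=
  M.μ.map (fun t => t x - t y)

lemma law_probX (M : Model r top) (x y : Fin n) : IsProbabilityMeasure (M.lawX x y) :=
  Measure.isProbabilityMeasure_map (meas_diffX x y).aemeasurable

lemma law_realX (M : Model r top) (x y : Fin n) {A : Set ℝ} (hA : MeasurableSet A) :
    (M.lawX x y).real A = M.μ.real {t | t x - t y ∈ A} := by
  unfold lawX
  rw [map_measureReal_apply (meas_diffX x y) hA]
  rfl

lemma law_midLCX (M : Model r top) (x y : Fin n) : MidLC (M.lawX x y) := by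
  intro A B D hA hB hD h
  rw [law_realX M x y hA, law_realX M x y hB, law_realX M x y hD]
  apply M.mid _ _ _ (meas_diffX x y hA) (meas_diffX x y hB) (meas_diffX x y hD)
  intro a ha b hb _ _
  have h1 := h _ ha _ hb
  have e : (a x + b x) / 2 - (a y + b y) / 2 = ((a x - a y) + (b x - b y)) / 2 := by ring
  show (a x + b x) / 2 - (a y + b y) / 2 ∈ D
  rw [e]
  exact h1

lemma law_bddX (M : Model r top) (x y : Fin n) : ∃ R : ℝ, ∀ᵐ z ∂(M.lawX x y), |z| ≤ R := by
  obtain ⟨R, hR⟩ := M.bdd
  refine ⟨R + R, ?_⟩
  unfold lawX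
  rw [ae_map_iff (meas_diffX x y).aemeasurable (measurableSet_le measurable_abs measurable_const)]
  filter_upwards [hR] with t ht
  have h1 := abs_le.1 (ht x)
  have h2 := abs_le.1 (ht y)
  rw [abs_le]
  constructor <;> linarith

lemma law_meanX (M : Model r top) (x y : Fin n) : ht r x - ht r y = ∫ z, z ∂(M.lawX x y) := by
  unfold lawX
  rw [integral_map (meas_diffX x y).aemeasurable (by fun_prop), M.mean]

lemma law_varX (M : Model r top) (x y : Fin n) :
    ∫ z, (z - (ht r x - ht r y)) ^ 2 ∂(M.lawX x y) = M.s x y ^ 2 := by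
  unfold lawX
  rw [integral_map (meas_diffX x y).aemeasurable (by fun_prop), s_sq]
  rfl

lemma law_nonnegX (M : Model r top) {x y : Fin n} (h : r x y) : ∀ᵐ z ∂(M.lawX y x), 0 ≤ z := by
  unfold lawX
  refine (ae_map_iff (meas_diffX y x).aemeasurable (measurableSet_Ici (a := (0:ℝ)))).2 ?_
  filter_upwards [M.ae_le h] with t ht
  show 0 ≤ t y - t x
  linarith

end Model

/-- small ball for `t x - t y` -/
theorem small_ballX : ∀ {n : ℕ} {r : Fin n → Fin n → Prop} {top : Fin n}
    (M : Model r top) (x y : Fin n), x ≠ y → ∀ (a w : ℝ), 0 < w →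
    M.μ.real {t | a ≤ t x - t y ∧ t x - t y ≤ a + w} ≤ 320 * w / M.s x y := by
  intro n r top M x y hxy a w hw
  have := M.law_probX x y
  have h := oneDim_small_ballX (M.lawX x y) (M.law_midLCX x y) (M.law_bddX x y) (ht r x - ht r y) (M.s x y)
    (M.law_meanX x y) (M.s_pos hxy) (M.law_varX x y).symm a w hw
  rw [M.law_realX x y measurableSet_Icc] at h
  exact h

/-- small values for comparable pairs -/
theorem small_relX : ∀ {n : ℕ} {r : Fin n → Fin n → Prop} {top : Fin n}
    (M : Model r top) (x y : Fin n), r x y → x ≠ y → ∀ (w : ℝ), 0 ≤ w →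
    M.μ.real {t | t y - t x ≤ w} ≤ 16 * w / (ht r y - ht r x) := by
  intro n r top M x y hr hxy w hw
  have := M.law_probX y x
  have hlt := M.ht_mono hr hxy
  have hm : 0 < ht r y - ht r x := by linarith
  rcases hw.lt_or_eq with hw0 | hw0
  · have h := (oneDim_nonnegX (M.lawX y x) (M.law_midLCX y x) (M.law_bddX y x) (M.law_nonnegX hr)
      (ht r y - ht r x) (M.law_meanX y x) hm).2 (w / (ht r y - ht r x)) (div_pos hw0 hm)
    rw [div_mul_cancel₀ _ hm.ne', M.law_realX y x measurableSet_Iic, ← mul_div_assoc] at h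
    exact h
  · subst hw0
    have h0 : M.μ {t | t y - t x ≤ 0} = 0 := by
      have h1 := M.noatom y x hxy.symm 0
      have h2 := M.ae_le hr
      rw [ae_iff] at h2
      apply measure_mono_null (t := {t | t y - t x = 0} ∪ {t | ¬ t x ≤ t y})
      · intro t ht
        have ht' : t y - t x ≤ 0 := ht
        rcases le_or_gt (t x) (t y) with h3 | h3
        · left
          show t y - t x = 0
          linarith
        · right
          exact not_le.2 h3
      · exact measure_union_null h1 h2
    rw [measureReal_def, h0]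
    simp

end Pool.Agent.Helper8.KS
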