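import Pool.Agent.KSR.Cover
import Pool.Agent.KSX.Small

set_option autoImplicit false

/-!
# Packing and covering, with explicit constants
-/

open MeasureTheory Pool.Agent.Helper1.Balance

namespace Pool.Agent.KSR

open Pool.Agent.Helper8.KS

/-- the small ball estimate, with its constant -/
theorem small_ballY : ∃ C : ℝ, 1 ≤ C ∧ C = 320 ∧ ∀ {n : ℕ} {r : Fin n → Fin n → Prop} {top : Fin n}
    (M : Model r top) (x y : Fin n), x ≠ y → ∀ (a w : ℝ), 0 < w →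
    M.μ.real {t | a ≤ t x - t y ∧ t x - t y ≤ a + w} ≤ C * w / M.s x y :=
  ⟨320, by norm_num, rfl, fun M x y h a w hw => small_ballX M x y h a w hw⟩

/-- small values for comparable pairs, with the constant -/
theorem small_relY : ∃ C : ℝ, 1 ≤ C ∧ C = 16 ∧ ∀ {n : ℕ} {r : Fin n → Fin n → Prop} {top : Fin n}
    (M : Model r top) (x y : Fin n), r x y → x ≠ y → ∀ (w : ℝ), 0 ≤ w →
    M.μ.real {t | t y - t x ≤ w} ≤ C * w / (ht r y - ht r x) :=
  ⟨16, by norm_num, rfl, fun M x y h h' w hw => small_relX M x y h h' w hw⟩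

/-- **Packing at ratio `q`.** -/
theorem packingX : ∀ ε : ℝ, 0 < ε → ε ≤ 1 / 2 → ∀ q : ℝ, 1 ≤ q →
    ∀ {n : ℕ} {r : Fin n → Fin n → Prop} {top : Fin n} (M : Model r top), Unb ε r →
    ∀ (S : ℝ) (X : Finset (Fin n)), 0 < S →
    (∀ x ∈ X, ∀ y ∈ X, x ≠ y →
      S ≤ M.s x y ∧ M.s x y ≤ q * S ∧ |ht r x - ht r y| ≤ q * S) →
    (X.card : ℝ) ≤ (q / ε) ^ (64 / ε ^ 2) := by
  obtain ⟨C, hC1, hCd, hC⟩ := small_ballY
  obtain ⟨p, hpd⟩ : ∃ p : ℕ, p = 20 := ⟨_, rfl⟩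
  have hp : 3000 * C ≤ 2 ^ p := by rw [hCd, hpd]; norm_num
  have hp1 : (0 : ℝ) ≤ p := Nat.cast_nonneg _
  have hlog4 : 0 < Real.log 4 := Real.log_pos (by norm_num)
  have hfin : Real.log 4 * (2 * ((p : ℝ) + 2) + 1 / Real.log 2) + 1 ≤ 64 := by
    have h2 : 0 < Real.log 2 := Real.log_pos (by norm_num)
    have h4 : Real.log 4 = 2 * Real.log 2 := by
      rw [show (4 : ℝ) = 2 ^ 2 by norm_num, Real.log_pow]; norm_num
    have h5 := Real.log_two_lt_d9
    have h6 : Real.log 4 * (2 * ((p : ℝ) + 2) + 1 / Real.log 2) = 88 * Real.log 2 + 2 := by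
      rw [h4, hpd]
      field_simp
      push_cast
      ring
    linarith
  intro ε hε hε2 q hq n r top M hU S X hS hX
  have hC0 : 0 < C := by linarith
  have hlog2 : 0 < Real.log 2 := Real.log_pos (by norm_num)
  set b : ℝ := q / ε with hb
  have hb2 : 2 ≤ b := by
    rw [hb, le_div_iff₀ hε]; linarith
  have hb0 : 0 < b := by linarith
  have hε1 : 1 / ε ≤ b := by
    rw [hb]
    exact div_le_div_of_nonneg_right hq hε.le
  have hlb : Real.log 2 ≤ Real.log b := Real.log_le_log (by norm_num) hb2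
  have hlb0 : 0 < Real.log b := by linarith
  obtain ⟨q0, hq0⟩ : ∃ q0 : ℕ, q0 = ⌈32 / ε⌉₊ := ⟨_, rfl⟩
  have hq0' : 32 / ε ≤ q0 := by rw [hq0]; exact Nat.le_ceil _
  have hq0'' : (q0 : ℝ) ≤ 33 / ε := by
    have h1 := Nat.ceil_lt_add_one (show 0 ≤ 32 / ε by positivity)
    rw [← hq0] at h1
    have h2 : (1 : ℝ) ≤ 1 / ε := by
      rw [le_div_iff₀ hε]; linarith
    have h3 : 33 / ε = 32 / ε + 1 / ε := by ring
    linarith
  set K : ℝ := 2 * (q * (4 * q0 + 1)) / (ε / (8 * C)) with hK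
  have hK0 : 0 ≤ K := by positivity
  obtain ⟨k, hk⟩ : ∃ k : ℕ, k = ⌊K⌋₊ + 1 := ⟨_, rfl⟩
  have hk' : K < k := by
    rw [hk]; push_cast; exact Nat.lt_floor_add_one K
  have hk'' : (k : ℝ) ≤ K + 1 := by
    rw [hk]; push_cast
    linarith [Nat.floor_le hK0]
  have hkb : (k : ℝ) ≤ b ^ (p + 2) := by
    have e1 : K ≤ 2400 * C * b ^ 2 := by
      rw [hK, div_le_iff₀ (by positivity)]
      have e2 : (4 * (q0 : ℝ) + 1) ≤ 134 / ε := by
        have : (1 : ℝ) ≤ 1 / ε := by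
          rw [le_div_iff₀ hε]; linarith
        have h3 : 134 / ε = 4 * (33 / ε) + 2 * (1 / ε) := by ring
        linarith
      have e3 : 2 * (q * (4 * q0 + 1)) ≤ 2 * (q * (134 / ε)) := by gcongr
      refine e3.trans ?_
      have e4 : 2400 * C * b ^ 2 * (ε / (8 * C)) = 300 * (q * (q / ε)) := by
        rw [hb]; field_simp; ring
      rw [e4]
      have e5 : 134 / ε ≤ 134 * (q / ε) := by
        rw [← mul_div_assoc]
        exact div_le_div_of_nonneg_right (by linarith) hε.le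
      have e6 : q * (134 / ε) ≤ q * (134 * (q / ε)) := by gcongr
      have e7 : 0 ≤ q * (q / ε) := by positivity
      linarith
    have e2 : (1 : ℝ) ≤ C * b ^ 2 := by nlinarith [sq_nonneg b]
    calc (k : ℝ) ≤ 2400 * C * b ^ 2 + 1 := by linarith
      _ ≤ 3000 * C * b ^ 2 := by nlinarith
      _ ≤ 2 ^ p * b ^ 2 := by gcongr
      _ ≤ b ^ p * b ^ 2 := by gcongr
      _ = b ^ (p + 2) := by rw [pow_add]
  have hk0 : (0 : ℝ) < k := lt_of_le_of_lt hK0 hk'
  have hlk : Real.log k ≤ (p + 2) * Real.log b := by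
    have h1 := Real.log_le_log hk0 hkb
    rwa [Real.log_pow, Nat.cast_add, Nat.cast_ofNat] at h1
  obtain ⟨h, hh⟩ : ∃ h : ℕ, h = ⌊2 * Real.log k / ε ^ 2⌋₊ + 1 := ⟨_, rfl⟩
  have hk1 : (1 : ℝ) ≤ k := by
    have : 0 < k := by exact_mod_cast hk0
    exact_mod_cast this
  have hlk0 : 0 ≤ Real.log k := Real.log_nonneg hk1
  have hh1 : 2 * Real.log k < h * ε ^ 2 := by
    have := Nat.lt_floor_add_one (2 * Real.log k / ε ^ 2)
    rw [div_lt_iff₀ (by positivity)] at this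
    rw [hh]; push_cast; exact this
  have hh2 : (h : ℝ) ≤ 2 * Real.log k / ε ^ 2 + 1 := by
    rw [hh]; push_cast
    linarith [Nat.floor_le (show 0 ≤ 2 * Real.log k / ε ^ 2 by positivity)]
  have hX4 := pack_cells hC1 hC ε hε q0 hq0' q hq k hk' h hh1 M hU S X hS hX
  have hX5 : (X.card : ℝ) ≤ (4 : ℝ) ^ h := by exact_mod_cast hX4.le
  have hmono : (q / ε) ^ ((Real.log 4 * (2 * ((p : ℝ) + 2) + 1 / Real.log 2) + 1) / ε ^ 2) ≤
      (q / ε) ^ (64 / ε ^ 2) := by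
    apply Real.rpow_le_rpow_of_exponent_le (by linarith)
    gcongr
  refine le_trans ?_ hmono
  refine hX5.trans ?_
  have e1 : (4 : ℝ) ^ h = Real.exp (Real.log 4 * h) := by
    rw [Real.exp_mul, Real.exp_log (by norm_num), Real.rpow_natCast]
  have e2 : b ^ ((Real.log 4 * (2 * ((p : ℝ) + 2) + 1 / Real.log 2) + 1) / ε ^ 2) =
      Real.exp (Real.log b *
        ((Real.log 4 * (2 * ((p : ℝ) + 2) + 1 / Real.log 2) + 1) / ε ^ 2)) := by
    rw [Real.exp_mul, Real.exp_log hb0]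
  rw [e1, e2, Real.exp_le_exp]
  have hεs : 0 < ε ^ 2 := by positivity
  have hεs1 : ε ^ 2 ≤ 1 := by nlinarith
  have e3 : (h : ℝ) ≤ (2 * ((p : ℝ) + 2) + 1 / Real.log 2) * (Real.log b / ε ^ 2) := by
    have e4 : 2 * Real.log k / ε ^ 2 ≤ 2 * ((p : ℝ) + 2) * (Real.log b / ε ^ 2) := by
      rw [mul_div_assoc', div_le_div_iff_of_pos_right hεs]
      linarith
    have e5 : (1 : ℝ) ≤ 1 / Real.log 2 * (Real.log b / ε ^ 2) := by
      rw [div_mul_div_comm, one_mul, le_div_iff₀ (by positivity)]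
      nlinarith
    have e6 : (2 * ((p : ℝ) + 2) + 1 / Real.log 2) * (Real.log b / ε ^ 2) =
        2 * ((p : ℝ) + 2) * (Real.log b / ε ^ 2) + 1 / Real.log 2 * (Real.log b / ε ^ 2) := by
      ring
    linarith
  have e7 : 0 ≤ Real.log b / ε ^ 2 := by positivity
  calc Real.log 4 * h ≤ Real.log 4 *
        ((2 * ((p : ℝ) + 2) + 1 / Real.log 2) * (Real.log b / ε ^ 2)) := by gcongr
    _ ≤ Real.log 4 * ((2 * ((p : ℝ) + 2) + 1 / Real.log 2) * (Real.log b / ε ^ 2)) +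
        Real.log b / ε ^ 2 := by linarith
    _ = _ := by ring

/-- **Covering at ratio `q`.** -/
theorem coverX : ∀ ε : ℝ, 0 < ε → ε ≤ 1 / 2 → ∀ q : ℝ, 1 ≤ q →
    ∀ {n : ℕ} {r : Fin n → Fin n → Prop} {top : Fin n} (M : Model r top), Unb ε r →
    ∀ ρ : ℝ, 0 < ρ → Cv M ρ (ρ / q) ((q / ε) ^ (129 / ε ^ 2)) := by
  have hp := @packingX
  intro ε hε hε2 q hq n r top M hU ρ hρ
  have hεs : 0 < ε ^ 2 := by positivity
  have hεs1 : ε ^ 2 ≤ 1 := by nlinarith
  have hb2 : 2 ≤ q / ε := by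
    rw [le_div_iff₀ hε]; linarith
  have hb0 : 0 < q / ε := by linarith
  refine (cv_of_packing M q hq ((2 * q / ε) ^ (64 / ε ^ 2)) (by positivity) ?_ ρ hρ).mono le_rfl ?_
  · intro S hS X hX
    exact hp ε hε hε2 (2 * q) (by linarith) M hU S X hS hX
  · have e1 : 2 * q / ε ≤ (q / ε) ^ (2 : ℝ) := by
      have e3 : (q / ε) ^ (2 : ℝ) = (q / ε) * (q / ε) := by
        rw [show (2 : ℝ) = ((2 : ℕ) : ℝ) by norm_num, Real.rpow_natCast]; ring
      rw [e3, mul_div_assoc]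
      gcongr
    have e2 : (2 * q / ε) ^ (64 / ε ^ 2) ≤ (q / ε) ^ (2 * (64 / ε ^ 2)) := by
      rw [Real.rpow_mul hb0.le]
      exact Real.rpow_le_rpow (by positivity) e1 (by positivity)
    have e3 : 2 * q ≤ (q / ε) ^ (1 / ε ^ 2) := by
      have e4 : 2 * q ≤ q / ε := by
        rw [le_div_iff₀ hε]; nlinarith
      have e5 : (q / ε) ^ (1 : ℝ) ≤ (q / ε) ^ (1 / ε ^ 2) := by
        apply Real.rpow_le_rpow_of_exponent_le (by linarith)
        rw [le_div_iff₀ hεs]; linarith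
      rw [Real.rpow_one] at e5
      linarith
    calc (2 * q / ε) ^ (64 / ε ^ 2) * (2 * q)
        ≤ (q / ε) ^ (2 * (64 / ε ^ 2)) * (q / ε) ^ (1 / ε ^ 2) := by
          apply mul_le_mul e2 e3 (by positivity) (by positivity)
      _ = (q / ε) ^ (129 / ε ^ 2) := by
          rw [← Real.rpow_add hb0]
          congr 1
          ring

end Pool.Agent.KSR
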