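import Pool.Agent.Helper8.KS.Near
import Pool.Agent.KSX.Small

set_option autoImplicit false

/-!
# The sums of the crossing probabilities, with explicit constants
-/

open Pool.Agent.Helper1.Balance MeasureTheory

open private far_term from Pool.Agent.Helper8.KS.Cross

namespace Pool.Agent.Helper8.KS

open NearAux

open Classical in
/-- (9.3) -/
theorem count_lowerX : ∀ {n : ℕ} (r : Fin n → Fin n → Prop),
    IsPoset r → ∀ (D : ℝ), 1 ≤ D → (∀ x, vr r x ≤ D ^ 2) → ∀ a : ℝ, 1 ≤ a → a + 16 * D ≤ n →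
    D ≤ ((Finset.univ.filter (fun x => a ≤ ht r x ∧ ht r x ≤ a + 16 * D)).card : ℝ) := by
  intro n r hr D hD hv a ha hn
  refine Pool.Agent.Helper18.KSC.le_card_mean hr D hD hv a (a + 16 * D) rfl ha hn _ ?_
  intro x h1 h2
  rw [Finset.mem_filter]
  exact ⟨Finset.mem_univ x, h1, h2⟩

open Classical in
/-- (10.1) -/
theorem far_sumX : ∀ {n : ℕ} {r : Fin n → Fin n → Prop} {top : Fin n}
    (M : Model r top) (D : ℝ), 1 ≤ D → (∀ x, vr r x ≤ D ^ 2) → ∀ y : Fin n,
    ∑ x ∈ Finset.univ.filter (fun x => 2560000000 * D ≤ |ht r x - ht r y|), Real.sqrt (crossP r x y)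
      ≤ D / 8 := by
  intro n r top M D hD hv y
  have hD0 : 0 < D := by linarith
  set F : Finset (Fin n) := Finset.univ.filter
    (fun x => 2560000000 * D ≤ |ht r x - ht r y|) with hF
  set j : Fin n → ℕ := fun x => ⌊|ht r x - ht r y| / D⌋₊ with hj
  have hjle : ∀ x, (j x : ℝ) * D ≤ |ht r x - ht r y| := by
    intro x
    have := Nat.floor_le (div_nonneg (abs_nonneg (ht r x - ht r y)) hD0.le)
    calc (j x : ℝ) * D ≤ (|ht r x - ht r y| / D) * D := by
          exact mul_le_mul_of_nonneg_right this hD0.le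
      _ = |ht r x - ht r y| := div_mul_cancel₀ _ hD0.ne'
  have hjlt : ∀ x, |ht r x - ht r y| < ((j x : ℝ) + 1) * D := by
    intro x
    have := Nat.lt_floor_add_one (|ht r x - ht r y| / D)
    calc |ht r x - ht r y| = (|ht r x - ht r y| / D) * D := (div_mul_cancel₀ _ hD0.ne').symm
      _ < ((j x : ℝ) + 1) * D := mul_lt_mul_of_pos_right this hD0
  have hjbig : ∀ x ∈ F, 2560000000 ≤ j x := by
    intro x hx
    have h1 : 2560000000 * D ≤ |ht r x - ht r y| := by
      rw [hF] at hx
      exact (Finset.mem_filter.mp hx).2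
    apply Nat.le_floor
    rw [le_div_iff₀ hD0]
    push_cast
    exact h1
  -- pointwise bound
  have hpt : ∀ x ∈ F, Real.sqrt (crossP r x y) ≤ 10000000 * (((j x : ℝ)) ^ 2)⁻¹ := by
    intro x hx
    have hjx : (0 : ℝ) < (j x : ℝ) := by
      have := hjbig x hx
      have h2 : 0 < j x := by omega
      exact_mod_cast h2
    have h1 : 2560000000 * D ≤ |ht r x - ht r y| := by
      rw [hF] at hx
      exact (Finset.mem_filter.mp hx).2
    have h2 : D ≤ |ht r x - ht r y| := by linarith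
    have h3 := far_term M D hD hv x y h2
    have hd0 : 0 < |ht r x - ht r y| := by linarith
    have h4 : D / |ht r x - ht r y| ≤ (j x : ℝ)⁻¹ := by
      rw [div_le_iff₀ hd0, ← div_eq_inv_mul, le_div_iff₀ hjx]
      have := hjle x
      linarith
    calc Real.sqrt (crossP r x y) ≤ 10000000 * (D / |ht r x - ht r y|) ^ 2 := h3
      _ ≤ 10000000 * ((j x : ℝ)⁻¹) ^ 2 := by
          apply mul_le_mul_of_nonneg_left _ (by norm_num)
          exact pow_le_pow_left₀ (by positivity) h4 2
      _ = 10000000 * (((j x : ℝ)) ^ 2)⁻¹ := by rw [inv_pow]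
  -- counting the fibres
  have hcount : ∀ k : ℕ, ((F.filter (fun x => j x = k)).card : ℝ) ≤ 16 * D := by
    intro k
    have hsub : F.filter (fun x => j x = k) ⊆
        (Finset.univ.filter (fun x => ht r y + k * D ≤ ht r x ∧ ht r x ≤ ht r y + (k + 1) * D)) ∪
        (Finset.univ.filter (fun x => ht r y - (k + 1) * D ≤ ht r x ∧
          ht r x ≤ ht r y - k * D)) := by
      intro x hx
      have hk : j x = k := (Finset.mem_filter.mp hx).2
      have h1 := hjle x
      have h2 := hjlt x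
      rw [hk] at h1 h2
      rw [Finset.mem_union, Finset.mem_filter, Finset.mem_filter]
      rcases le_total 0 (ht r x - ht r y) with h3 | h3
      · rw [abs_of_nonneg h3] at h1 h2
        left
        exact ⟨Finset.mem_univ _, by linarith, by linarith⟩
      · rw [abs_of_nonpos h3] at h1 h2
        right
        exact ⟨Finset.mem_univ _, by linarith, by linarith⟩
    have hc1 := count_upper r M.poset D hD hv (ht r y + k * D) (ht r y + (k + 1) * D)
      (by nlinarith)
    have hc2 := count_upper r M.poset D hD hv (ht r y - (k + 1) * D) (ht r y - k * D)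
      (by nlinarith)
    have hcard := (Finset.card_le_card hsub).trans (Finset.card_union_le _ _)
    have hcard' : ((F.filter (fun x => j x = k)).card : ℝ) ≤
      ((Finset.univ.filter (fun x => ht r y + k * D ≤ ht r x ∧
        ht r x ≤ ht r y + (k + 1) * D)).card : ℝ) +
        ((Finset.univ.filter (fun x => ht r y - (k + 1) * D ≤ ht r x ∧
          ht r x ≤ ht r y - k * D)).card : ℝ) := by
      exact_mod_cast hcard
    have e1 : ht r y + ((k : ℝ) + 1) * D - (ht r y + (k : ℝ) * D) = D := by ring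
    have e2 : ht r y - (k : ℝ) * D - (ht r y - ((k : ℝ) + 1) * D) = D := by ring
    rw [e1] at hc1
    rw [e2] at hc2
    linarith
  -- the range of j
  have himg : F.image j ⊆ Finset.Ioo 2559999999 ((F.image j).sup id + 1) := by
    intro k hk
    rw [Finset.mem_Ioo]
    refine ⟨?_, ?_⟩
    · obtain ⟨x, hx, rfl⟩ := Finset.mem_image.mp hk
      have := hjbig x hx
      omega
    · have : k ≤ (F.image j).sup id := Finset.le_sup (f := id) hk
      omega
  calc ∑ x ∈ F, Real.sqrt (crossP r x y)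
      ≤ ∑ x ∈ F, 10000000 * (((j x : ℝ)) ^ 2)⁻¹ := Finset.sum_le_sum hpt
    _ = ∑ k ∈ F.image j, (F.filter (fun x => j x = k)).card • (10000000 * ((k : ℝ) ^ 2)⁻¹) :=
        Finset.sum_comp (fun k : ℕ => 10000000 * ((k : ℝ) ^ 2)⁻¹) j
    _ ≤ ∑ k ∈ F.image j, 16 * D * (10000000 * ((k : ℝ) ^ 2)⁻¹) := by
        refine Finset.sum_le_sum (fun k _ => ?_)
        rw [nsmul_eq_mul]
        exact mul_le_mul_of_nonneg_right (hcount k) (by positivity)
    _ ≤ ∑ k ∈ Finset.Ioo 2559999999 ((F.image j).sup id + 1),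
          16 * D * (10000000 * ((k : ℝ) ^ 2)⁻¹) := by
        apply Finset.sum_le_sum_of_subset_of_nonneg himg
        intro k _ _
        positivity
    _ = 160000000 * D * ∑ k ∈ Finset.Ioo 2559999999 ((F.image j).sup id + 1),
          ((k : ℝ) ^ 2)⁻¹ := by
        rw [Finset.mul_sum]
        refine Finset.sum_congr rfl (fun k _ => ?_)
        ring
    _ ≤ 160000000 * D * (2 / ((2559999999 : ℕ) + 1)) := by
        apply mul_le_mul_of_nonneg_left _ (by positivity)
        exact sum_Ioo_inv_sq_le 2559999999 ((F.image j).sup id + 1)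
    _ ≤ D / 8 := by
        push_cast
        norm_num
        linarith

/-- crossing probability through the chain, first part of (10.6) -/
theorem crossP_nearX : ∀ {n : ℕ} {r : Fin n → Fin n → Prop} {top : Fin n}
    (M : Model r top) (x y z w : Fin n) (δ a : ℝ), 0 < δ → 2 ≤ a → (r z w ∨ r w z) →
    M.s x z ≤ δ → |ht r x - ht r z| ≤ δ → M.s y w ≤ δ → |ht r y - ht r w| ≤ δ →
    4 * δ ≤ |ht r x - ht r y| →
    crossP r x y ≤ 32 * a * δ / |ht r x - ht r y| + 8 * (3 : ℝ) ^ (-(a - 2) / 8) := by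
  intro n r top M x y z w δ a hδ ha hrel h1 h2 h3 h4 h5
  have hsmall := fun (w z : Fin n) => small_relX M w z
  -- symmetric formulation: `ht y < ht x`
  have main : ∀ (x y z w : Fin n), (r z w ∨ r w z) →
      M.s x z ≤ δ → |ht r x - ht r z| ≤ δ → M.s y w ≤ δ → |ht r y - ht r w| ≤ δ →
      4 * δ ≤ ht r x - ht r y →
      prob r x y ≤ 32 * a * δ / (ht r x - ht r y) + 8 * (3 : ℝ) ^ (-(a - 2) / 8) := by
    intro x y z w hrel h1 h2 h3 h4 h5
    have hxy : x ≠ y := by
      rintro rfl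
      linarith
    have hzw : (ht r x - ht r y) / 2 ≤ ht r z - ht r w := by
      have := abs_le.1 h2
      have := abs_le.1 h4
      linarith
    have hzw0 : 0 < ht r z - ht r w := by linarith
    have hne : w ≠ z := by
      rintro rfl
      linarith
    have hwz : r w z := by
      rcases hrel with h | h
      · have := M.ht_mono h (Ne.symm hne)
        linarith
      · exact h
    rw [← M.prob_lt x y hxy]
    have hsub : {t : Fin n → ℝ | t x < t y} ⊆ ({t | t z - t w ≤ a * δ} ∪
        {t | (a - 2) / 2 * δ ≤ |M.cd x z t|}) ∪ {t | (a - 2) / 2 * δ ≤ |M.cd y w t|} := by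
      intro t htxy
      change t x < t y at htxy
      by_contra hcon
      simp only [Set.mem_union, Set.mem_ofPred_eq, not_or, not_le] at hcon
      obtain ⟨⟨c1, c2⟩, c3⟩ := hcon
      have b1 := abs_lt.1 c2
      have b2 := abs_lt.1 c3
      have b3 := abs_le.1 h2
      have b4 := abs_le.1 h4
      unfold Model.cd at b1 b2
      nlinarith
    have e1 := hsmall w z hwz hne (a * δ) (by positivity)
    have e2 := M.tail x z δ hδ h1 ((a - 2) / 2) (by linarith)
    have e3 := M.tail y w δ hδ h3 ((a - 2) / 2) (by linarith)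
    rw [show -((a - 2) / 2) / 4 = -(a - 2) / 8 by ring] at e2 e3
    calc M.μ.real {t | t x < t y}
        ≤ M.μ.real (({t | t z - t w ≤ a * δ} ∪
          {t | (a - 2) / 2 * δ ≤ |M.cd x z t|}) ∪ {t | (a - 2) / 2 * δ ≤ |M.cd y w t|}) :=
          measureReal_mono hsub
      _ ≤ (M.μ.real {t | t z - t w ≤ a * δ} + M.μ.real {t | (a - 2) / 2 * δ ≤ |M.cd x z t|})
          + M.μ.real {t | (a - 2) / 2 * δ ≤ |M.cd y w t|} :=
          (measureReal_union_le _ _).trans (by gcongr; exact measureReal_union_le _ _)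
      _ ≤ 16 * (a * δ) / (ht r z - ht r w) + 8 * (3 : ℝ) ^ (-(a - 2) / 8) := by linarith
      _ ≤ _ := by
          have : 16 * (a * δ) / (ht r z - ht r w) ≤ 16 * (a * δ) / ((ht r x - ht r y) / 2) :=
            div_le_div_of_nonneg_left (by positivity) (by linarith) hzw
          have e4 : 16 * (a * δ) / ((ht r x - ht r y) / 2) =
              32 * a * δ / (ht r x - ht r y) := by
            have : ht r x - ht r y ≠ 0 := by linarith
            field_simp
            ring
          linarith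
  unfold crossP
  by_cases hlt : ht r x < ht r y
  · simp only [if_pos hlt]
    have e : |ht r x - ht r y| = ht r y - ht r x := by
      rw [abs_of_neg (by linarith)]; ring
    rw [e] at h5 ⊢
    exact main y x w z (Or.symm hrel) h3 h4 h1 h2 h5
  · simp only [if_neg hlt]
    have e : |ht r x - ht r y| = ht r x - ht r y := abs_of_nonneg (by linarith)
    rw [e] at h5 ⊢
    exact main x y z w hrel h1 h2 h3 h4 h5

open Classical in
/-- (10.6) -/
theorem near_sumX : ∃ κ2 : ℝ, (1 / 2) ^ 65 < κ2 ∧ ∃ D1 : ℝ, 1 ≤ D1 ∧ D1 < 2 ^ 64 ∧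
    ∀ {n : ℕ} {r : Fin n → Fin n → Prop} {top : Fin n}
    (M : Model r top) (D : ℝ), D1 ≤ D → ∀ (y : Fin n) (G : Set (Fin n)),
    (∀ a ∈ G, ∀ b ∈ G, r a b ∨ r b a) →
    (∀ x, |ht r x - ht r y| ≤ (2560000000 : ℝ) * D → ∃ z ∈ G, M.s x z ≤ κ2 * D ∧ |ht r x - ht r z| ≤ κ2 * D) →
    ∑ x ∈ Finset.univ.filter (fun x => x ≠ y ∧ |ht r x - ht r y| < (2560000000 : ℝ) * D),
      Real.sqrt (crossP r x y) ≤ 3 * D / 8 := by
  have hnear := @crossP_nearX
  -- the choice of `a`
  obtain ⟨a, had⟩ : ∃ a : ℝ, a = 418 := ⟨_, rfl⟩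
  have ha2 : 2 ≤ a := by rw [had]; norm_num
  have haa : 26 * (2560000000 : ℝ) * Real.sqrt (8 * (3 : ℝ) ^ (-(a - 2) / 8)) ≤ 1 / 8 := by
    have e1 : (3 : ℝ) ^ (-(a - 2) / 8) = (1 / 3) ^ (52 : ℕ) := by
      rw [had, show -((418 : ℝ) - 2) / 8 = -((52 : ℕ) : ℝ) by norm_num, Real.rpow_neg (by norm_num),
        Real.rpow_natCast, one_div, inv_pow]
    rw [e1]
    have e2 : Real.sqrt (8 * (1 / 3 : ℝ) ^ 52) ≤ 1 / (208 * 2560000000) := by
      apply Real.sqrt_le_iff.2
      refine ⟨by positivity, by norm_num⟩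
    calc 26 * (2560000000 : ℝ) * Real.sqrt (8 * (1 / 3 : ℝ) ^ 52)
        ≤ 26 * 2560000000 * (1 / (208 * 2560000000)) :=
          mul_le_mul_of_nonneg_left e2 (by positivity)
      _ = 1 / 8 := by norm_num
  have ha0 : 0 < a := by linarith
  obtain ⟨κ, hκd⟩ : ∃ κ : ℝ, κ = 1 / (2 ^ 65 - 1) := ⟨_, rfl⟩
  have hκ0 : 0 < κ := by rw [hκd]; norm_num
  have hκ1 : 104 * κ ≤ 1 / 8 := by rw [hκd]; norm_num
  have hκ2 : 104 * Real.sqrt (32 * a * κ * 2560000000) ≤ 1 / 8 := by
    have h2 : Real.sqrt (32 * a * κ * 2560000000) ≤ 1 / 832 := by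
      apply Real.sqrt_le_iff.2
      refine ⟨by norm_num, ?_⟩
      rw [had, hκd]
      norm_num
    linarith
  refine ⟨κ, by rw [hκd]; norm_num, max 1 (1 / (4 * κ)), le_max_left _ _, ?_, ?_⟩
  · rw [hκd]
    norm_num
  intro n r top M D hD y G hG hclose
  have hD1 : 1 ≤ D := (le_max_left _ _).trans hD
  have hD0 : 0 < D := by linarith
  have hD2 : 1 ≤ 4 * (κ * D) := by
    have := (le_max_right _ _).trans hD
    rw [div_le_iff₀ (by positivity)] at this
    linarith
  have hδ : 0 < κ * D := by positivity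
  have h4 : 4 * (κ * D) ≤ (2560000000 : ℝ) * D := by
    have : 4 * κ ≤ (2560000000 : ℝ) := by linarith
    nlinarith
  have hL : 0 < (2560000000 : ℝ) * D := by positivity
  obtain ⟨u, hu, hu1, hu2⟩ := hclose y (by rw [sub_self, abs_zero]; positivity)
  set U := Finset.univ.filter (fun x => x ≠ y ∧ |ht r x - ht r y| < (2560000000 : ℝ) * D) with hU
  set U1 := U.filter (fun x => |ht r x - ht r y| < 4 * (κ * D)) with hU1
  set U2 := U.filter (fun x => ¬ |ht r x - ht r y| < 4 * (κ * D)) with hU2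
  rw [← Finset.sum_filter_add_sum_filter_not U (fun x => |ht r x - ht r y| < 4 * (κ * D))]
  rw [← hU1, ← hU2]
  -- first part
  have p1 : ∑ x ∈ U1, Real.sqrt (crossP r x y) ≤ D / 8 := by
    calc ∑ x ∈ U1, Real.sqrt (crossP r x y) ≤ ∑ x ∈ U1, (1 : ℝ) := by
          apply Finset.sum_le_sum
          intro x _
          exact Real.sqrt_le_one.2 (crossP_le_one r x y)
      _ = (U1.card : ℝ) := by rw [Finset.sum_const, nsmul_eq_mul, mul_one]
      _ ≤ ((Finset.univ.filter (fun x => |ht r x - ht r y| ≤ 4 * (κ * D))).card : ℝ) := by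
          exact_mod_cast Finset.card_le_card (fun x hx => by
            rw [hU1, Finset.mem_filter] at hx
            exact Finset.mem_filter.2 ⟨Finset.mem_univ _, hx.2.le⟩)
      _ ≤ 26 * (4 * (κ * D)) :=
          local_count M y (κ * D) (4 * (κ * D)) ((2560000000 : ℝ) * D) hδ G hG hclose hD2 le_rfl h4
      _ ≤ D / 8 := by nlinarith
  -- second part
  have p2 : ∑ x ∈ U2, Real.sqrt (crossP r x y) ≤ D / 4 := by
    have q0 : ∀ x ∈ U2, 4 * (κ * D) ≤ |ht r x - ht r y| ∧ |ht r x - ht r y| ≤ (2560000000 : ℝ) * D := by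
      intro x hx
      rw [hU2, Finset.mem_filter, hU, Finset.mem_filter, not_lt] at hx
      exact ⟨hx.2, hx.1.2.2.le⟩
    have q1 : ∀ x ∈ U2, Real.sqrt (crossP r x y) ≤
        Real.sqrt (32 * a * (κ * D)) * (1 / Real.sqrt |ht r x - ht r y|) +
          Real.sqrt (8 * (3 : ℝ) ^ (-(a - 2) / 8)) := by
      intro x hx
      obtain ⟨b1, b2⟩ := q0 x hx
      obtain ⟨z, hz, hz1, hz2⟩ := hclose x b2
      have b3 := hnear M x y z u (κ * D) a hδ ha2 (hG z hz u hu) hz1 hz2 hu1 hu2 b1
      have b0 : 0 < |ht r x - ht r y| := by linarith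
      calc Real.sqrt (crossP r x y)
          ≤ Real.sqrt (32 * a * (κ * D) / |ht r x - ht r y| + 8 * (3 : ℝ) ^ (-(a - 2) / 8)) :=
            Real.sqrt_le_sqrt b3
        _ ≤ Real.sqrt (32 * a * (κ * D) / |ht r x - ht r y|) +
            Real.sqrt (8 * (3 : ℝ) ^ (-(a - 2) / 8)) :=
            sqrt_add_le' _ _ (by positivity) (by positivity)
        _ = _ := by rw [Real.sqrt_div (by positivity)]; ring
    have q2 : ∑ x ∈ U2, 1 / Real.sqrt |ht r x - ht r y| ≤ 4 * 26 * Real.sqrt ((2560000000 : ℝ) * D) := by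
      apply sum_inv_sqrt_le U2 (fun x => |ht r x - ht r y|) ((2560000000 : ℝ) * D) (4 * (κ * D)) 26
        (by positivity) h4 (by norm_num) q0
      intro w hw1 hw2
      refine le_trans ?_ (local_count M y (κ * D) w ((2560000000 : ℝ) * D) hδ G hG hclose (hD2.trans hw1) hw1 hw2)
      exact_mod_cast Finset.card_le_card (fun x hx => by
        rw [Finset.mem_filter] at hx
        exact Finset.mem_filter.2 ⟨Finset.mem_univ _, hx.2⟩)
    have q3 : (U2.card : ℝ) ≤ 26 * ((2560000000 : ℝ) * D) := by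
      refine le_trans ?_ (local_count M y (κ * D) ((2560000000 : ℝ) * D) ((2560000000 : ℝ) * D) hδ G hG hclose (by nlinarith) h4
        le_rfl)
      exact_mod_cast Finset.card_le_card (fun x hx =>
        Finset.mem_filter.2 ⟨Finset.mem_univ _, (q0 x hx).2⟩)
    calc ∑ x ∈ U2, Real.sqrt (crossP r x y)
        ≤ ∑ x ∈ U2, (Real.sqrt (32 * a * (κ * D)) * (1 / Real.sqrt |ht r x - ht r y|) +
          Real.sqrt (8 * (3 : ℝ) ^ (-(a - 2) / 8))) := Finset.sum_le_sum q1
      _ = Real.sqrt (32 * a * (κ * D)) * ∑ x ∈ U2, 1 / Real.sqrt |ht r x - ht r y| +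
          (U2.card : ℝ) * Real.sqrt (8 * (3 : ℝ) ^ (-(a - 2) / 8)) := by
          rw [Finset.sum_add_distrib, ← Finset.mul_sum, Finset.sum_const, nsmul_eq_mul]
      _ ≤ Real.sqrt (32 * a * (κ * D)) * (4 * 26 * Real.sqrt ((2560000000 : ℝ) * D)) +
          26 * ((2560000000 : ℝ) * D) * Real.sqrt (8 * (3 : ℝ) ^ (-(a - 2) / 8)) := by
          gcongr
      _ = 104 * (Real.sqrt (32 * a * (κ * D)) * Real.sqrt ((2560000000 : ℝ) * D)) +
          26 * (2560000000 : ℝ) * Real.sqrt (8 * (3 : ℝ) ^ (-(a - 2) / 8)) * D := by ring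
      _ = 104 * Real.sqrt (32 * a * κ * (2560000000 : ℝ)) * D +
          26 * (2560000000 : ℝ) * Real.sqrt (8 * (3 : ℝ) ^ (-(a - 2) / 8)) * D := by
          rw [← Real.sqrt_mul (by positivity),
            show 32 * a * (κ * D) * ((2560000000 : ℝ) * D) = 32 * a * κ * (2560000000 : ℝ) * (D * D) by ring,
            Real.sqrt_mul (by positivity), Real.sqrt_mul_self hD0.le]
          ring
      _ ≤ 1 / 8 * D + 1 / 8 * D := by gcongr
      _ = D / 4 := by ring
  linarith

end Pool.Agent.Helper8.KS
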