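import Pool.Agent.KSX.Growth

set_option autoImplicit false

/-!
# Explicit order of `1/2 - δ_w` and explicit growth: the final statement
-/

open Pool.Agent.Helper1.Balance

namespace Pool.Agent.KSX

/-- antichains, explicit -/
theorem antichain {ε : ℝ} (hε : 0 < ε) (hε2 : ε ≤ 1 / 2) {n : ℕ} {r : Fin n → Fin n → Prop}
    (hr : IsPoset r) {s : Finset (Fin n)} (hs : IsAnti r s)
    (hc : (1 / ε) ^ (360000000 / ε ^ 4) < s.card) :
    ∃ x y : Fin n, ¬ r x y ∧ ¬ r y x ∧ |prob r x y - 1 / 2| < ε := by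
  by_contra hcon
  push Not at hcon
  have hU : Pool.Agent.Helper8.KS.Unb ε r := by
    intro x y hxy
    by_cases h : r x y ∨ r y x
    · exact Pool.Agent.Helper11.Chain.unb_of_rel r hr h hxy hε2
    · push Not at h
      exact hcon x y h.1 h.2
  have h6 := (Pool.Agent.KSR.unb_boundX ε hε hε2 r hr hU).1 s hs
  linarith

/-- degrees, explicit -/
theorem degree {ε : ℝ} (hε : 0 < ε) (hε2 : ε ≤ 1 / 2) {n : ℕ} {r : Fin n → Fin n → Prop}
    (hr : IsPoset r) (hb : balance r ≤ 1 / 2 - ε) (x : Fin n) :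
    (Nat.card {y : Fin n // ¬ r x y ∧ ¬ r y x} : ℝ) ≤ (1 / ε) ^ (360000000 / ε ^ 4) := by
  have hU := Pool.Agent.Helper11.KSStruct.unb_of_balance r hr hε hb
  rw [min_eq_left hε2] at hU
  exact (Pool.Agent.KSR.unb_boundX ε hε hε2 r hr hU).2 x

/-- the number of the bound at `ε = 1/6` -/
theorem sixth : (1 / (1 / 6 : ℝ)) ^ (360000000 / (1 / 6 : ℝ) ^ 4) ≤ Real.exp (10 ^ 12) := by
  rw [one_div_one_div, ← Real.log_le_iff_le_exp (Real.rpow_pos_of_pos (by norm_num) _),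
    Real.log_rpow (by norm_num)]
  have h1 : Real.log 6 ≤ 2 := by
    rw [Real.log_le_iff_le_exp (by norm_num)]
    have h2 : Real.exp 2 = Real.exp 1 * Real.exp 1 := by
      rw [← Real.exp_add]; norm_num
    have h3 := Real.exp_one_gt_d9
    rw [h2]
    nlinarith
  have h2 : (360000000 / (1 / 6 : ℝ) ^ 4) = 360000000 * 1296 := by norm_num
  rw [h2]
  linarith

/-- `δ_w > 1/3` for `w ≥ exp (10 ^ 12)` -/
theorem third {w : ℕ} (hw : Real.exp (10 ^ 12) ≤ w) : 1 / 3 < deltaW w := by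
  have h := Pool.Agent.KSR.deltaW_rateX (100 / 601) (by norm_num) (by norm_num) w (by
    refine lt_of_lt_of_le ?_ hw
    have e1 : (1 / (100 / 601) : ℝ) = 601 / 100 := by norm_num
    rw [e1, ← Real.log_lt_log_iff (Real.rpow_pos_of_pos (by norm_num) _) (Real.exp_pos _),
      Real.log_rpow (by norm_num), Real.log_exp]
    have h1 : Real.log (601 / 100) ≤ 2 := by
      rw [Real.log_le_iff_le_exp (by norm_num)]
      have h2 : Real.exp 2 = Real.exp 1 * Real.exp 1 := by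
        rw [← Real.exp_add]; norm_num
      have h3 := Real.exp_one_gt_d9
      rw [h2]
      nlinarith
    have h2 : (360000000 / (100 / 601 : ℝ) ^ 4) ≤ 480000000000 := by norm_num
    have h3 : 0 ≤ Real.log (601 / 100) := Real.log_nonneg (by norm_num)
    have h4 : (360000000 / (100 / 601 : ℝ) ^ 4) * Real.log (601 / 100) ≤ 480000000000 * 2 :=
      mul_le_mul h2 h1 h3 (by norm_num)
    linarith)
  linarith

/-- the exponent as a natural number -/
theorem conv (l : ℝ) : l ^ ((10 : ℝ) ^ 9) = l ^ (10 ^ 9) := by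
  have h : ((10 : ℝ) ^ 9) = ((10 ^ 9 : ℕ) : ℝ) := by norm_num
  rw [h, Real.rpow_natCast]

/-- **The minimal balance constants, explicit.** -/
theorem done :
    (∀ ε : ℝ, 0 < ε → ε ≤ 1 / 2 → ∀ (n : ℕ) (r : Fin n → Fin n → Prop), IsPoset r →
      ∀ s : Finset (Fin n), IsAnti r s → (1 / ε) ^ (360000000 / ε ^ 4) < s.card →
        ∃ x y : Fin n, ¬ r x y ∧ ¬ r y x ∧ |prob r x y - 1 / 2| < ε) ∧
    (∀ ε : ℝ, 0 < ε → ε ≤ 1 / 2 → ∀ (n : ℕ) (r : Fin n → Fin n → Prop), IsPoset r →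
      balance r ≤ 1 / 2 - ε → ∀ x : Fin n,
        (Nat.card {y : Fin n // ¬ r x y ∧ ¬ r y x} : ℝ) ≤ (1 / ε) ^ (360000000 / ε ^ 4)) ∧
    (∀ (n : ℕ) (r : Fin n → Fin n → Prop), IsPoset r →
      ∀ s : Finset (Fin n), IsAnti r s → Real.exp (10 ^ 12) < s.card →
        ∃ x y : Fin n, 1 / 3 < prob r x y ∧ prob r x y < 2 / 3) ∧
    (∀ w : ℕ, Real.exp (10 ^ 12) ≤ w → 1 / 3 < deltaW w) ∧
    (∀ w : ℕ, 16 ≤ w →
      1 / 2 - 100 * (Real.log (Real.log w) / Real.log w) ^ (1 / 4 : ℝ) ≤ deltaW w) ∧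
    (∀ w : ℕ, 3 ≤ w → deltaW w ≤ 1 / 2 - 1 / (10 ^ 9 * (Real.log w) ^ (10 ^ 9))) ∧
    (∀ w : ℕ, 2 ^ 2 ^ 20 ≤ w → deltaW w ≤ 1 / 2 - 1 / (Real.log w) ^ 9000) ∧
    (∀ w w' : ℕ, Real.exp (10 ^ 9 * (Real.log ((w : ℝ) + 3)) ^ (10 ^ 9)) ≤ w' →
      deltaW w < deltaW w') ∧
    (∀ w w' : ℕ, 2 ^ 2 ^ 20 ≤ w → Real.exp ((Real.log w) ^ 40000) ≤ w' →
      deltaW w < deltaW w') ∧
    (∀ w : ℕ, ∃ v : ℕ, w ≤ v ∧
      (v : ℝ) ≤ Real.exp (10 ^ 9 * (Real.log ((w : ℝ) + 3)) ^ (10 ^ 9)) ∧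
      ∀ u : ℕ, v < u → deltaW v < deltaW u) ∧
    Filter.Tendsto deltaW Filter.atTop (nhds (1 / 2)) := by
  refine ⟨?_, ?_, ?_, fun w hw => third hw, fun w hw => loglog hw, 
    fun w hw => by rw [← conv]; exact upper_all hw,
    fun w hw => (upper_large hw).2, fun w w' h => growth_all (by rw [conv]; exact h),
    fun w w' h h' => growth_large h h',
    fun w => by rw [← conv]; exact growth_point w, Pool.Agent.Helper8.KS.deltaW_tendsto⟩
  · intro ε hε hε2 n r hr s hs hc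
    exact antichain hε hε2 hr hs hc
  · intro ε hε hε2 n r hr hb x
    exact degree hε hε2 hr hb x
  · intro n r hr s hs hc
    obtain ⟨x, y, _, _, h⟩ := antichain (ε := 1 / 6) (by norm_num) (by norm_num) hr hs
      (lt_of_le_of_lt sixth hc)
    have h1 := abs_lt.1 h
    exact ⟨x, y, by linarith [h1.1], by linarith [h1.2]⟩

end Pool.Agent.KSX
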