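import Pool.Agent.KSX.Upper
import Pool.Agent.Helper19.T1.Growth

set_option autoImplicit false

/-!
# Explicit growth of the balance constants
-/

open Pool.Agent.Helper1.Balance

namespace Pool.Agent.KSX

/-- `δ_w ≥ 1/2 - 100 (log log w / log w)^(1/4)` -/
theorem loglog {w : ℕ} (hw : 16 ≤ w) :
    1 / 2 - 100 * (Real.log (Real.log w) / Real.log w) ^ (1 / 4 : ℝ) ≤ deltaW w := by
  have hwR : (16 : ℝ) ≤ w := by exact_mod_cast hw
  have hw0 : (0 : ℝ) < w := by linarith
  obtain ⟨L, hL⟩ : ∃ L : ℝ, L = Real.log w := ⟨_, rfl⟩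
  have he : Real.exp 1 ≤ L := by
    have h1 : Real.log 16 ≤ L := by
      rw [hL]; exact Real.log_le_log (by norm_num) hwR
    have h2 : Real.log 16 = 4 * Real.log 2 := by
      rw [show (16 : ℝ) = 2 ^ 4 by norm_num, Real.log_pow]; norm_num
    have h3 := Real.log_two_gt_d9
    have h4 := Real.exp_one_lt_d9
    linarith
  have hL0 : 0 < L := lt_of_lt_of_le (Real.exp_pos 1) he
  obtain ⟨l, hl⟩ : ∃ l : ℝ, l = Real.log L := ⟨_, rfl⟩
  have hl1 : 1 ≤ l := by
    rw [hl, Real.le_log_iff_exp_le hL0]; exact he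
  rw [← hL, ← hl]
  have hlL : 0 < l / L := by positivity
  obtain ⟨ε, hεd⟩ : ∃ ε : ℝ, ε = 100 * (l / L) ^ (1 / 4 : ℝ) := ⟨_, rfl⟩
  rw [← hεd]
  have hε : 0 < ε := by rw [hεd]; positivity
  rcases le_or_gt ε (1 / 2) with hε2 | hε2
  · refine Pool.Agent.KSR.deltaW_rateX ε hε hε2 w ?_
    have hε4 : ε ^ 4 = 10 ^ 8 * (l / L) := by
      have h1 : ((l / L) ^ (1 / 4 : ℝ)) ^ 4 = l / L := by
        rw [← Real.rpow_natCast, ← Real.rpow_mul hlL.le]
        norm_num
      rw [hεd, mul_pow, h1]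
      norm_num
    -- log (1/ε) ≤ l / 4
    have hlog : Real.log (1 / ε) ≤ l / 4 := by
      have h1 : Real.log ε = Real.log 100 + 1 / 4 * (Real.log l - l) := by
        rw [hεd, Real.log_mul (by norm_num) (by positivity), Real.log_rpow hlL,
          Real.log_div (by linarith) hL0.ne', ← hl]
      have h2 : 0 ≤ Real.log 100 := Real.log_nonneg (by norm_num)
      have h3 : 0 ≤ Real.log l := Real.log_nonneg hl1
      rw [one_div, Real.log_inv, h1]
      linarith
    have hb0 : 0 < 1 / ε := by positivity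
    rw [← Real.log_lt_log_iff (by positivity) hw0, Real.log_rpow hb0, ← hL]
    have h3 : 360000000 / ε ^ 4 = 18 / 5 * (L / l) := by
      rw [hε4]
      field_simp
      norm_num
    have h4 : 0 ≤ L / l := by positivity
    rw [h3]
    calc 18 / 5 * (L / l) * Real.log (1 / ε) ≤ 18 / 5 * (L / l) * (l / 4) :=
          mul_le_mul_of_nonneg_left hlog (by positivity)
      _ = 9 / 10 * L := by
          have : l ≠ 0 := by linarith
          field_simp
          norm_num
      _ < L := by linarith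
  · have := Pool.Agent.KSR.deltaW_nonneg w
    linarith

/-- comparison of the bounds: the general step -/
theorem lt_of_bounds {w w' : ℕ} {b : ℝ} (hb : 2 ≤ b) (hup : deltaW w ≤ 1 / 2 - 2 / b)
    (hw' : 360000000 * b ^ 4 * Real.log b < Real.log w') : deltaW w < deltaW w' := by
  have hb0 : 0 < b := by linarith
  have hε : 0 < 1 / b := by positivity
  have hε2 : 1 / b ≤ 1 / 2 := one_div_le_one_div_of_le (by norm_num) hb
  have hw0 : (0 : ℝ) < w' := by
    rcases Nat.eq_zero_or_pos w' with h | h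
    · exfalso
      rw [h] at hw'
      simp only [Nat.cast_zero, Real.log_zero] at hw'
      have h1 : 0 ≤ 360000000 * b ^ 4 * Real.log b := by
        have := Real.log_nonneg (show 1 ≤ b by linarith)
        positivity
      linarith
    · exact_mod_cast h
  have h := Pool.Agent.KSR.deltaW_rateX (1 / b) hε hε2 w' (by
    rw [one_div_one_div, ← Real.log_lt_log_iff (Real.rpow_pos_of_pos hb0 _) hw0,
      Real.log_rpow hb0]
    have h1 : 360000000 / (1 / b) ^ 4 = 360000000 * b ^ 4 := by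
      field_simp
    rw [h1]
    exact hw')
  have h2 : 2 / b = 2 * (1 / b) := by ring
  rw [h2] at hup
  linarith

/-- growth from large widths -/
theorem growth_large {w w' : ℕ} (hw : 2 ^ 2 ^ 20 ≤ w)
    (hw' : Real.exp ((Real.log w) ^ 40000) ≤ w') : deltaW w < deltaW w' := by
  obtain ⟨h1, h2⟩ := upper_large hw
  obtain ⟨x, hx⟩ : ∃ x : ℝ, x = Real.log w := ⟨_, rfl⟩
  rw [← hx] at h1 h2 hw'
  have hx1 : 1 ≤ x := le_trans (by norm_num) h1
  have hx0 : 0 < x := by linarith
  have hp : 1 ≤ x ^ 9000 := one_le_pow₀ hx1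
  have hw0 : (0 : ℝ) < w' := lt_of_lt_of_le (Real.exp_pos _) hw'
  refine lt_of_bounds (b := 2 * x ^ 9000) (by linarith) ?_ ?_
  · refine h2.trans (le_of_eq ?_)
    congr 1
    rw [div_eq_div_iff (by positivity) (by positivity)]
    ring
  · have h3 : x ^ 40000 ≤ Real.log w' := by
      rw [Real.le_log_iff_exp_le hw0]; exact hw'
    refine lt_of_lt_of_le ?_ h3
    have h4 : Real.log (2 * x ^ 9000) ≤ 9000 * x := by
      rw [Real.log_mul (by norm_num) (by positivity), Real.log_pow]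
      have h5 := Real.log_two_lt_d9
      have h6 := Real.log_le_sub_one_of_pos hx0
      push_cast
      linarith
    have h5 : 360000000 * (2 * x ^ 9000) ^ 4 * Real.log (2 * x ^ 9000) ≤
        360000000 * (2 * x ^ 9000) ^ 4 * (9000 * x) :=
      mul_le_mul_of_nonneg_left h4 (by positivity)
    refine lt_of_le_of_lt h5 ?_
    have h6 : 360000000 * (2 * x ^ 9000) ^ 4 * (9000 * x) =
        (360000000 * 16 * 9000) * x ^ 36001 := by ring
    rw [h6]
    have h7 : (360000000 * 16 * 9000 : ℝ) < x ^ 3 := by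
      calc (360000000 * 16 * 9000 : ℝ) < (2 ^ 19) ^ 3 := by norm_num
        _ ≤ x ^ 3 := pow_le_pow_left₀ (by norm_num) h1 3
    calc (360000000 * 16 * 9000) * x ^ 36001 < x ^ 3 * x ^ 36001 :=
          mul_lt_mul_of_pos_right h7 (by positivity)
      _ = x ^ 36004 := by rw [← pow_add]
      _ ≤ x ^ 40000 := pow_le_pow_right₀ hx1 (by norm_num)

/-- the trivial upper bound, for all widths -/
theorem upper_trivial (w : ℕ) : deltaW w ≤ 1 / 2 - 2 / (24 * ((w : ℝ) + 1)) := by
  have hwR : (0 : ℝ) ≤ w := Nat.cast_nonneg w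
  have e : 2 / (24 * ((w : ℝ) + 1)) = 1 / (12 * ((w : ℝ) + 1)) := by
    rw [div_eq_div_iff (by positivity) (by positivity)]
    ring
  rw [e]
  rcases lt_or_ge w 2 with hw | hw
  · have h1 := Pool.Agent.KSR.deltaW_le_zero hw
    have h2 : 1 / (12 * ((w : ℝ) + 1)) ≤ 1 / 12 :=
      one_div_le_one_div_of_le (by norm_num) (by linarith)
    linarith
  · refine (main w hw).trans ?_
    have h0 : (2 : ℝ) ≤ w := by exact_mod_cast hw
    have h2 : 1 / (12 * ((w : ℝ) + 1)) ≤ 1 / (12 * ((w : ℝ) - 1)) :=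
      one_div_le_one_div_of_le (by linarith) (by linarith)
    linarith

/-- growth for all widths -/
theorem growth_all {w w' : ℕ}
    (hw' : Real.exp (10 ^ 9 * (Real.log ((w : ℝ) + 3)) ^ ((10 : ℝ) ^ 9)) ≤ w') :
    deltaW w < deltaW w' := by
  have hwR : (0 : ℝ) ≤ w := Nat.cast_nonneg w
  obtain ⟨l, hl⟩ : ∃ l : ℝ, l = Real.log ((w : ℝ) + 3) := ⟨_, rfl⟩
  rw [← hl] at hw'
  have hl1 : 17 / 16 ≤ l := by
    rw [hl]
    exact log_three_ge.trans (Real.log_le_log (by norm_num) (by linarith))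
  have hl11 : 1 ≤ l := by linarith
  have hw0 : (0 : ℝ) < w' := lt_of_lt_of_le (Real.exp_pos _) hw'
  have hlog : 10 ^ 9 * l ^ ((10 : ℝ) ^ 9) ≤ Real.log w' := by
    rw [Real.le_log_iff_exp_le hw0]; exact hw'
  obtain ⟨M, hM⟩ : ∃ M : ℕ, M = 2 ^ 20 := ⟨_, rfl⟩
  rcases le_or_gt (2 ^ 2 ^ 20) w with hc | hc
  · refine growth_large hc ?_
    rw [← Real.le_log_iff_exp_le hw0]
    refine le_trans ?_ hlog
    have h1 := (upper_large hc).1
    have h2 : Real.log w ≤ l := by
      rw [hl]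
      have h3 : (0 : ℝ) < w := by
        rcases hwR.lt_or_eq with h | h
        · exact h
        · rw [← h, Real.log_zero] at h1
          norm_num at h1
      exact Real.log_le_log h3 (by linarith)
    have h3 : (Real.log w) ^ 40000 ≤ l ^ 40000 :=
      pow_le_pow_left₀ (le_trans (by norm_num) h1) h2 _
    have h4 : l ^ 40000 ≤ l ^ ((10 : ℝ) ^ 9) := by
      rw [← Real.rpow_natCast]
      exact Real.rpow_le_rpow_of_exponent_le hl11 (by norm_num)
    have h5 : 0 < l ^ ((10 : ℝ) ^ 9) := Real.rpow_pos_of_pos (by linarith) _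
    linarith
  · rw [← hM] at hc
    have h0 : (w : ℝ) + 1 ≤ 2 ^ M := by
      have : w + 1 ≤ 2 ^ M := hc
      exact_mod_cast this
    refine lt_of_bounds (b := 24 * ((w : ℝ) + 1)) (by linarith) (upper_trivial w) ?_
    refine lt_of_lt_of_le ?_ hlog
    obtain ⟨b, hb⟩ : ∃ b : ℝ, b = 24 * ((w : ℝ) + 1) := ⟨_, rfl⟩
    rw [← hb]
    have hb1 : 24 ≤ b := by rw [hb]; linarith
    have hb2 : b ≤ 2 ^ (M + 5) := by
      rw [pow_add]
      have : (0 : ℝ) < 2 ^ M := by positivity
      rw [hb]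
      linarith
    have h1 : Real.log b ≤ b := by
      have := Real.log_le_sub_one_of_pos (show 0 < b by linarith)
      linarith
    have h2 : 360000000 * b ^ 4 * Real.log b ≤ 360000000 * b ^ 4 * b :=
      mul_le_mul_of_nonneg_left h1 (by positivity)
    have h3 : 360000000 * b ^ 4 * b = 360000000 * b ^ 5 := by ring
    have h4 : b ^ 5 ≤ l ^ ((10 : ℝ) ^ 9) := by
      refine le_trans (pow_le_pow_left₀ (by linarith) hb2 5) ?_
      rw [← pow_mul]
      exact rpow_ge hl1 (by rw [hM]; norm_num)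
    have h5 : 0 < b ^ 5 := by positivity
    linarith

/-- points of growth -/
theorem growth_point (w : ℕ) : ∃ v : ℕ, w ≤ v ∧
    (v : ℝ) ≤ Real.exp (10 ^ 9 * (Real.log ((w : ℝ) + 3)) ^ ((10 : ℝ) ^ 9)) ∧
      ∀ u : ℕ, v < u → deltaW v < deltaW u := by
  refine Pool.Agent.Helper19.T1.growthPoint deltaW
    (fun w : ℕ => Real.exp (10 ^ 9 * (Real.log ((w : ℝ) + 3)) ^ ((10 : ℝ) ^ 9)))
    (fun w w' h => growth_all h) w ?_
  have hwR : (0 : ℝ) ≤ w := Nat.cast_nonneg w
  have hl1 : 17 / 16 ≤ Real.log ((w : ℝ) + 3) :=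
    log_three_ge.trans (Real.log_le_log (by norm_num) (by linarith))
  have h1 : Real.log ((w : ℝ) + 3) ≤ (Real.log ((w : ℝ) + 3)) ^ ((10 : ℝ) ^ 9) := by
    have := Real.rpow_le_rpow_of_exponent_le (show 1 ≤ Real.log ((w : ℝ) + 3) by linarith)
      (show (1 : ℝ) ≤ (10 : ℝ) ^ 9 by norm_num)
    rwa [Real.rpow_one] at this
  have h2 : Real.log ((w : ℝ) + 3) ≤ 10 ^ 9 * (Real.log ((w : ℝ) + 3)) ^ ((10 : ℝ) ^ 9) := by
    linarith
  have h3 := Real.exp_le_exp.2 h2
  rw [Real.exp_log (by linarith)] at h3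
  show (w : ℝ) ≤ Real.exp (10 ^ 9 * (Real.log ((w : ℝ) + 3)) ^ ((10 : ℝ) ^ 9))
  linarith

end Pool.Agent.KSX
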