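import Mathlib
import Pool.Agent.T1K.Main
import Pool.Agent.T1K.FinB
import Pool.Agent.T1K.StatB

set_option autoImplicit false

/-!
# The upper bound for the balance constants with explicit constants, for large widths
-/

open Pool.Agent.Helper1.Balance

namespace Pool.Agent.KSX

open Pool.Agent.T1K

/-- exponentials beat powers, explicit -/
theorem pow_le_aux (k : ℕ) (hk : 20 ≤ k) : (k + 1) * 22200 ≤ 2 ^ (k - 1) := by
  induction k, hk using Nat.le_induction with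
  | base => norm_num
  | succ k hk ih =>
    have h1 : 2 ^ (k + 1 - 1) = 2 * 2 ^ (k - 1) := by
      rw [← pow_succ']
      congr 1
      omega
    rw [h1]
    calc (k + 1 + 1) * 22200 ≤ (2 * (k + 1)) * 22200 := Nat.mul_le_mul_right _ (by omega)
      _ = 2 * ((k + 1) * 22200) := by ring
      _ ≤ 2 * 2 ^ (k - 1) := Nat.mul_le_mul_left 2 ih

theorem pow_le {L : ℕ} (hL : 2 ^ 20 ≤ L) : L ^ 22200 ≤ 2 ^ (L / 2) := by
  obtain ⟨k, hk⟩ : ∃ k, k = Nat.log 2 L := ⟨_, rfl⟩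
  have hL0 : L ≠ 0 := by
    have : 0 < 2 ^ 20 := by positivity
    omega
  have hk20 : 20 ≤ k := by
    rw [hk]
    exact Nat.le_log_of_pow_le (by norm_num) hL
  have h1 : 2 ^ k ≤ L := by rw [hk]; exact Nat.pow_log_le_self 2 hL0
  have h2 : L < 2 ^ (k + 1) := by rw [hk]; exact Nat.lt_pow_succ_log_self (by norm_num) L
  have h3 : 2 ^ (k - 1) ≤ L / 2 := by
    rw [Nat.le_div_iff_mul_le (by norm_num)]
    refine le_trans (le_of_eq ?_) h1
    rw [← pow_succ]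
    congr 1
    omega
  calc L ^ 22200 ≤ (2 ^ (k + 1)) ^ 22200 := Nat.pow_le_pow_left h2.le _
    _ = 2 ^ ((k + 1) * 22200) := by rw [← pow_mul]
    _ ≤ 2 ^ (L / 2) := Nat.pow_le_pow_right (by norm_num) ((pow_le_aux k hk20).trans h3)

/-- the list of pairs, explicit -/
theorem sh_pairsX : ShPairs (2 ^ 20) := by
  intro L q N s l hs hL hL1 hq1 hq2 hN _ hp
  have hL2 : 2 ≤ L := le_trans (by norm_num) hL
  obtain ⟨hR, hKM⟩ := Nm.KM_le hL2 hq1 hq2
  have h3 : (L ^ 74) ^ 300 ≤ 2 ^ (L / 2) := by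
    rw [← pow_mul]
    exact pow_le hL
  obtain ⟨h1, h2⟩ := Nm.num_of hR ((Nat.pow_le_pow_left hKM 300).trans (h3.trans hN))
  have hst : Static (L * q ^ 2) := static_of_main hR (fun hp => main_X hR hp)
    (fun hp z hz hz' => main_L hR hp hz hz')
  exact ⟨nlS (L * q ^ 2) N s l hs, nuS (L * q ^ 2) N s l hs,
    pairs_of_near hR hst hp (near_Sh hR h1 h2)⟩

/-- **The construction**, explicit. -/
theorem construct {L : ℕ} (hL : 2 ^ 20 ≤ L) : ∃ K : ℕ, 1 ≤ K ∧ K ≤ L ^ 37 ∧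
    ∀ N s : ℕ, 2 ^ (L / 2) ≤ N → N ≤ 2 ^ L → s < 2 * K →
      deltaW (2 * K * N + s) ≤ 1 / 2 - 1 / (L : ℝ) ^ 8362 := by
  have hL2 : 2 ≤ L := le_trans (by norm_num) hL
  obtain ⟨q, l, hq1, hq2, hl⟩ := exists_code (L := L) (by omega)
  obtain ⟨R, hR⟩ : ∃ R, R = L * q ^ 2 := ⟨_, rfl⟩
  have hq0 : 1 ≤ q := by omega
  have hRL : L ≤ R := by
    rw [hR]
    exact Nat.le_mul_of_pos_right L (by positivity)
  have hR1 : 1 ≤ R := by omega
  have hqL : q ≤ 2 ^ 6 * L ^ 2 := by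
    have h1 : 2 ^ 2 ≤ L ^ 2 := Nat.pow_le_pow_left hL2 2
    omega
  have hRu : R * 3 ^ 12 ≤ L ^ 37 := by
    calc R * 3 ^ 12 = L * q ^ 2 * 3 ^ 12 := by rw [hR]
      _ ≤ L * (2 ^ 6 * L ^ 2) ^ 2 * 2 ^ 20 := by
          refine Nat.mul_le_mul (Nat.mul_le_mul_left _ (Nat.pow_le_pow_left hqL 2)) ?_
          norm_num
      _ = 2 ^ 32 * L ^ 5 := by ring
      _ ≤ L ^ 32 * L ^ 5 := Nat.mul_le_mul_right _ (Nat.pow_le_pow_left hL2 32)
      _ = L ^ 37 := by rw [← pow_add]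
  have hK : Kn R ≤ L ^ 37 := by
    refine (Kn_le hR1).trans (le_trans ?_ hRu)
    exact Nat.mul_le_mul_left _ (Nat.pow_le_pow_right (by norm_num) (by norm_num))
  have hM : Mn R ≤ L ^ 37 := (Mn_le' hR1).trans hRu
  refine ⟨Kn R, Nat.succ_pos _, hK, ?_⟩
  intro N s hN1 hN2 hs
  have hN : 1 ≤ N := le_trans (Nat.one_le_two_pow) hN1
  rw [hR] at hs
  obtain ⟨nl, nu, h⟩ := sh_pairsX L q N s l hs hL (by omega) hq1 hq2 hN1 hN2
    fun b b' hb hb' => hl b b' hb (lt_of_lt_of_le hb' hN2)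
  rw [hR]
  refine (deltaW_Sh (by omega) hN h).trans ?_
  rw [← hR]
  have hgap : 1 / (L : ℝ) ^ 8362 ≤ gapn R := by
    refine le_trans ?_ (gapn_ge hR1)
    have hpos : (0 : ℝ) < (Kn R : ℝ) * (Mn R : ℝ) := by linarith [KM_ge' hR1]
    refine one_div_le_one_div_of_le (pow_pos hpos _) ?_
    have h1 : Kn R * Mn R ≤ L ^ 74 := by
      calc Kn R * Mn R ≤ L ^ 37 * L ^ 37 := Nat.mul_le_mul hK hM
        _ = L ^ 74 := by rw [← pow_add]
    have h2 : (Kn R * Mn R) ^ 113 ≤ L ^ 8362 := by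
      calc (Kn R * Mn R) ^ 113 ≤ (L ^ 74) ^ 113 := Nat.pow_le_pow_left h1 _
        _ = L ^ 8362 := by rw [← pow_mul]
    exact_mod_cast h2
  linarith

end Pool.Agent.KSX
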