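import Pool.Agent.KSR.TheoremI
import Pool.Agent.KSX.Close
import Pool.Agent.KSX.Dense

set_option autoImplicit false

/-!
# Bounded spread of the elements, with explicit constants
-/

open MeasureTheory Pool.Agent.Helper1.Balance Pool.Agent.Helper8.KS

open private chain_rel from Pool.Agent.KSR.TheoremI

namespace Pool.Agent.KSR

/-- Section 10, in the model. -/
theorem theoremI_model_polyX :
    ∃ c : ℝ, 1 ≤ c ∧ ∀ ε : ℝ, 0 < ε → ε ≤ 1 / 2 →
    ∀ {n : ℕ} {r : Fin n → Fin n → Prop} {top : Fin n}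
    (M : Model r top), Unb ε r → ∀ D : ℝ, (1 / ε) ^ (1459457 / ε ^ 4) ≤ D → (∀ x, vr r x ≤ D ^ 2) →
    ∀ y : Fin n, vr r y = D ^ 2 → c * D ≤ ht r y → ht r y + c * D ≤ n → False := by
  classical
  have hfar' := @far_sumX
  obtain ⟨κ2, hk, D1, hD1, hN, hnear'⟩ := near_sumX
  have hclose := closeness_polyX
  obtain ⟨l2, hl2d⟩ : ∃ l2 : ℝ, l2 = 2560000000 := ⟨_, rfl⟩
  rw [← hl2d] at hfar' hnear'
  have hl2 : 1 ≤ l2 := by rw [hl2d]; norm_num
  obtain ⟨p, hpd⟩ : ∃ p : ℝ, p = 1459456 + 1 := ⟨_, rfl⟩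
  have hp : 1 ≤ p := by rw [hpd]; norm_num
  have hdense := dense_chain_polyX 82 (l2 + 128) (by linarith) 36 (by rw [hl2d]; norm_num)
    1459456 (by norm_num)
  rw [← hpd] at hdense
  obtain ⟨pc, hpc⟩ : ∃ pc : ℕ, pc = 17 := ⟨_, rfl⟩
  obtain ⟨k, hkd⟩ : ∃ k : ℕ, k = 65 := ⟨_, rfl⟩
  rw [show 82 = pc + k by rw [hpc, hkd]] at hdense
  rw [← hpc] at hclose
  rw [← hkd] at hk
  refine ⟨l2 + 128 + 17, by linarith, ?_⟩
  intro ε hε hε' n r top M hU D hD hv y hvy h1 h2
  rw [show (1459457 : ℝ) = p by rw [hpd]; norm_num] at hD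
  have hDD0 : (1 / ε) ^ (p / ε ^ 4) ≤ D := hD
  have hDD1 : D1 ≤ D := by
    refine le_trans ?_ (le_trans (thr_mono (p := 64) hε hε' (by rw [hpd]; norm_num)) hD)
    refine le_trans hN.le ?_
    have := thr_ge (by norm_num : (0 : ℝ) ≤ 64) hε hε'
    rw [← Real.rpow_natCast]
    push_cast
    exact this
  have hD1' : 1 ≤ D := by
    refine le_trans ?_ hDD0
    refine le_trans ?_ (thr_ge (by linarith : (0 : ℝ) ≤ p) hε hε')
    exact Real.one_le_rpow (by norm_num) (by linarith)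
  obtain ⟨m, γ, hγ, hlo, hhi⟩ := hdense ε hε hε' M hU D hDD0 hv y h1 h2
  set G : Set (Fin n) := {z | ∃ i, i ≤ m ∧ z = γ i} with hGdef
  have hG : ∀ a ∈ G, ∀ b ∈ G, r a b ∨ r b a := by
    rintro a ⟨i, hi, rfl⟩ b ⟨j, hj, rfl⟩
    rcases le_total i j with hij | hij
    · exact Or.inl (chain_rel M.poset hγ i j hij hj)
    · exact Or.inr (chain_rel M.poset hγ j i hij hi)
  have hcl : ∀ x, |ht r x - ht r y| ≤ l2 * D →
      ∃ z ∈ G, M.s x z ≤ κ2 * D ∧ |ht r x - ht r z| ≤ κ2 * D := by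
    intro x hx
    obtain ⟨i, hi, hs, hh⟩ := hclose ε hε hε' l2 hl2 M hU D hD1' hv y (ε ^ (pc + k))
      (by positivity) m γ hγ hlo hhi x hx
    have e : (1 / ε) ^ pc * ε ^ (pc + k) * D ≤ κ2 * D := by
      have e1 : (1 / ε) ^ pc * ε ^ (pc + k) = ε ^ k := by
        rw [pow_add, ← mul_assoc, ← mul_pow, one_div_mul_cancel hε.ne', one_pow, one_mul]
      rw [e1]
      have e2 : ε ^ k ≤ κ2 := (pow_le_pow_left₀ hε.le hε' k).trans hk.le
      exact mul_le_mul_of_nonneg_right e2 (by linarith)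
    exact ⟨γ i, ⟨i, hi, rfl⟩, hs.trans e, hh.trans e⟩
  have hn := hnear' M D hDD1 y G hG hcl
  have hf := hfar' M D hD1' hv y
  have hs := sd_le_sum_cross r M.poset y
  rw [hvy, Real.sqrt_sq (by linarith)] at hs
  have hsplit : ∑ x ∈ Finset.univ.filter (fun x => x ≠ y), Real.sqrt (crossP r x y) ≤
      ∑ x ∈ Finset.univ.filter (fun x => x ≠ y ∧ |ht r x - ht r y| < l2 * D),
        Real.sqrt (crossP r x y) +
      ∑ x ∈ Finset.univ.filter (fun x => l2 * D ≤ |ht r x - ht r y|),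
        Real.sqrt (crossP r x y) := by
    have hsub : (Finset.univ.filter (fun x => x ≠ y)) ⊆
        (Finset.univ.filter (fun x => x ≠ y ∧ |ht r x - ht r y| < l2 * D)) ∪
        (Finset.univ.filter (fun x => l2 * D ≤ |ht r x - ht r y|)) := by
      intro x hx
      simp only [Finset.mem_filter, Finset.mem_univ, true_and, Finset.mem_union] at hx ⊢
      rcases lt_or_ge (|ht r x - ht r y|) (l2 * D) with h | h
      · exact Or.inl ⟨hx, h⟩
      · exact Or.inr h
    calc ∑ x ∈ Finset.univ.filter (fun x => x ≠ y), Real.sqrt (crossP r x y) ≤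
        ∑ x ∈ (Finset.univ.filter (fun x => x ≠ y ∧ |ht r x - ht r y| < l2 * D)) ∪
          (Finset.univ.filter (fun x => l2 * D ≤ |ht r x - ht r y|)),
          Real.sqrt (crossP r x y) :=
          Finset.sum_le_sum_of_subset_of_nonneg hsub (fun _ _ _ => Real.sqrt_nonneg _)
      _ ≤ _ := by
          rw [← Finset.sum_union_inter]
          have : 0 ≤ ∑ x ∈ (Finset.univ.filter (fun x => x ≠ y ∧ |ht r x - ht r y| < l2 * D)) ∩
            (Finset.univ.filter (fun x => l2 * D ≤ |ht r x - ht r y|)),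
            Real.sqrt (crossP r x y) := Finset.sum_nonneg (fun _ _ => Real.sqrt_nonneg _)
          linarith
  have key : D ≤ 3 * D / 8 + D / 8 := by
    refine le_trans ?_ (le_trans hsplit (add_le_add hn hf))
    convert hs using 2
  linarith

/-- Theorem I with an explicit bound, from the dense chain. -/
theorem theoremI_polyX : ∀ ε : ℝ, 0 < ε → ε ≤ 1 / 2 →
    ∀ {n : ℕ} (r : Fin n → Fin n → Prop), IsPoset r → Unb ε r →
    ∀ x, vr r x ≤ ((1 / ε) ^ (1459457 / ε ^ 4)) ^ 2 := by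
  obtain ⟨c, hc, hmod⟩ := theoremI_model_polyX
  intro ε hε hε' n r hr hU x
  by_contra hx
  push Not at hx
  set D0 : ℝ := (1 / ε) ^ (1459457 / ε ^ 4) with hD0def
  have hD0 : 1 ≤ D0 := by
    refine le_trans ?_ (thr_ge (by norm_num : (0 : ℝ) ≤ 1459457) hε hε')
    exact Real.one_le_rpow (by norm_num) (by norm_num)
  -- the element of maximal variance
  obtain ⟨y, -, hy⟩ := Finset.exists_max_image (Finset.univ : Finset (Fin n)) (vr r)
    ⟨x, Finset.mem_univ x⟩
  have hy' : ∀ z, vr r z ≤ vr r y := fun z => hy z (Finset.mem_univ z)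
  set D : ℝ := Real.sqrt (vr r y) with hD
  have hDsq : D ^ 2 = vr r y := by rw [hD, Real.sq_sqrt (vr_nonneg r y)]
  have hD0D : D0 ≤ D := by
    rw [hD]
    apply Real.le_sqrt_of_sq_le
    linarith [hy' x]
  have hDpos : 1 ≤ D := le_trans hD0 hD0D
  obtain ⟨N, hN⟩ := exists_nat_ge (c * D)
  have hN1 : 1 ≤ N := by
    have : (1 : ℝ) ≤ N := by nlinarith
    exact_mod_cast this
  obtain ⟨r', top, i, hr', htop, hinj, hprob, hht, hvr, hvr0, hunb⟩ := extension r hr N hN1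
  obtain ⟨M⟩ := exists_model r' top hr' htop
  refine hmod ε hε hε' M (hunb _ hε' hU) D hD0D ?_ (i y) ?_ ?_ ?_
  · intro z
    by_cases hz : ∃ x, z = i x
    · obtain ⟨x, rfl⟩ := hz
      rw [hvr, hDsq]
      exact hy' x
    · push Not at hz
      rw [hvr0 z hz]
      positivity
  · rw [hvr, hDsq]
  · rw [hht]
    linarith [ht_nonneg r y]
  · rw [hht]
    push_cast
    linarith [ht_le r y]

end Pool.Agent.KSR
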