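import Pool.Agent.KSR.Final
import Pool.Agent.KSX.TheoremI

set_option autoImplicit false

/-!
# The Kahn-Saks conjecture with an explicit rate
-/

open Pool.Agent.Helper1.Balance Pool.Agent.Helper8.KS

namespace Pool.Agent.KSR

section

open Finset Pool.Agent.Helper18.Interval Pool.Agent.Helper60.KS
open Pool.Agent.Helper8.KS (vr Ex ht pos LEs LEs_eq_LX)

/-- elements which are not below each other are at distance `K s ^ 48` -/
theorem close_polyX : ∃ K : ℝ, 1 ≤ K ∧ 4 / 3 * (2 * K + 5) ≤ 2 ^ 197 ∧ ∀ s : ℝ, 1 ≤ s → ∀ (n : ℕ) (r : Fin n → Fin n → Prop)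
    (mu : Fin n → ℝ), IsPoset r → VarLe r mu s → 0 < (LX r).card →
    ∀ a b, ¬ r a b → mu b - mu a ≤ K * s ^ 48 := by
  set A : ℝ := ka + 1 with hA
  have hA1 : 1 ≤ A := by rw [hA]; unfold ka; norm_num
  set K : ℝ := (8 * A ^ 2 * (2 * A + 1024) + 1) * (2 * A) + 4 with hK
  refine ⟨K, ?_, by rw [hK, hA]; unfold ka; norm_num, fun s hs n r mu hr hV hN a b hab => ?_⟩
  · rw [hK]
    have : 0 ≤ (8 * A ^ 2 * (2 * A + 1024) + 1) * (2 * A) := by positivity
    linarith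
  have hs0 : 0 < s := by linarith
  have hC1 : 0 ≤ c1 s := by unfold c1; positivity
  have hk0 : 0 ≤ ka * s ^ 12 := by unfold ka; positivity
  set m : ℕ := ⌊ka * s ^ 12⌋₊ + 1 with hm
  have m1 : ka * s ^ 12 < m := by
    rw [hm]; push_cast; exact Nat.lt_floor_add_one _
  have m2 : (m : ℝ) ≤ A * s ^ 12 := by
    rw [hm, hA]; push_cast
    have := Nat.floor_le hk0
    have p : 1 ≤ s ^ 12 := one_le_pow₀ hs
    linarith
  set x : ℝ := 2 * ((2 * m : ℕ) : ℝ) ^ 2 * (2 * m + 4 * c1 s) with hx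
  have hx0 : 0 ≤ x := by rw [hx]; positivity
  set M : ℕ := ⌊x⌋₊ + 1 with hM
  have M1 : x < M := by rw [hM]; push_cast; exact Nat.lt_floor_add_one _
  have hm0 : (0 : ℝ) ≤ m := Nat.cast_nonneg m
  have x2 : x ≤ 8 * A ^ 2 * (2 * A + 1024) * s ^ 36 := by
    have h1 := c1_le hs
    have h2 : 4 * c1 s ≤ 1024 * s ^ 12 := by
      have : s ^ 3 ≤ s ^ 12 := pow_le_pow_right₀ hs (by norm_num)
      linarith
    have h3 : 2 * (m : ℝ) + 4 * c1 s ≤ (2 * A + 1024) * s ^ 12 := by linarith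
    rw [hx]
    push_cast
    calc 2 * (2 * (m : ℝ)) ^ 2 * (2 * m + 4 * c1 s)
        ≤ 2 * (2 * (A * s ^ 12)) ^ 2 * ((2 * A + 1024) * s ^ 12) := by
          apply mul_le_mul _ h3 (by positivity) (by positivity)
          gcongr
      _ = 8 * A ^ 2 * (2 * A + 1024) * s ^ 36 := by ring
  have M2 : (M : ℝ) ≤ (8 * A ^ 2 * (2 * A + 1024) + 1) * s ^ 36 := by
    rw [hM]; push_cast
    have := Nat.floor_le hx0
    have p : 1 ≤ s ^ 36 := one_le_pow₀ hs
    linarith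
  have h := close_of hs0 (m := m) (M := M) (lt_of_le_of_lt (m_le hs) m1) M1 n r mu hr hV hN a b hab
  refine h.trans ?_
  have h2 : (M : ℝ) * (2 * m) ≤ ((8 * A ^ 2 * (2 * A + 1024) + 1) * s ^ 36) * (2 * (A * s ^ 12)) := by
    apply mul_le_mul M2 _ (by positivity) (by positivity)
    linarith
  have h3 : 4 * s ≤ 4 * s ^ 48 := by
    have : s ^ 1 ≤ s ^ 48 := pow_le_pow_right₀ hs (by norm_num)
    linarith
  have h4 : ((8 * A ^ 2 * (2 * A + 1024) + 1) * s ^ 36) * (2 * (A * s ^ 12))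
      = (8 * A ^ 2 * (2 * A + 1024) + 1) * (2 * A) * s ^ 48 := by ring
  rw [hK]
  rw [h4] at h2
  linarith

/-- **Theorem II, polynomial form**: if the position of every element in a random linear extension
has variance at most `D ^ 2`, then antichains have at most `K D ^ 48` elements, and every element is
incomparable to at most `K D ^ 48` others. -/
theorem theoremII_polyX : ∃ K : ℝ, 1 ≤ K ∧ K ≤ 2 ^ 197 ∧ ∀ D : ℝ, 1 ≤ D → ∀ {n : ℕ}
    (r : Fin n → Fin n → Prop), IsPoset r → (∀ x, vr r x ≤ D ^ 2) →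
    (∀ s : Finset (Fin n), IsAnti r s → (s.card : ℝ) ≤ K * D ^ 48) ∧
    (∀ x : Fin n, (Nat.card {y : Fin n // ¬ r x y ∧ ¬ r y x} : ℝ) ≤ K * D ^ 48) := by
  classical
  obtain ⟨K, hK, hK2, hclose⟩ := close_polyX
  refine ⟨4 / 3 * (2 * K + 5), by linarith, hK2, fun D hD n r hr hv => ?_⟩
  have hpos : (0 : ℝ) < ((LX r).card : ℝ) := by exact_mod_cast LX_card_pos hr
  have hV : VarLe r (fun x => ht r x - 1) D := by
    intro x
    have h1 := hv x
    unfold vr Ex at h1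
    rw [LEs_eq_LX, div_le_iff₀ hpos] at h1
    refine le_trans (le_of_eq ?_) h1
    refine Finset.sum_congr rfl fun σ _ => ?_
    unfold pos
    ring
  have hN := LX_card_pos hr
  have hc := hclose D hD n r _ hr hV hN
  have hKD : 0 ≤ K * D ^ 48 := by positivity
  have p48 : D ≤ D ^ 48 := le_self_pow₀ hD (by norm_num)
  have p48' : 1 ≤ D ^ 48 := one_le_pow₀ hD
  have hdens : ∀ a0 : Fin n, ((univ.filter
      (fun x : Fin n => |(ht r x - 1) - (ht r a0 - 1)| ≤ K * D ^ 48)).card : ℝ)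
        ≤ 4 / 3 * (2 * K + 5) * D ^ 48 := by
    intro a0
    refine (density (by linarith) hV hN (ht r a0 - 1) (K * D ^ 48) hKD).trans ?_
    nlinarith
  constructor
  · intro A hA
    rcases A.eq_empty_or_nonempty with rfl | ⟨a0, ha0⟩
    · simp only [card_empty, Nat.cast_zero]
      positivity
    refine le_trans ?_ (hdens a0)
    norm_cast
    apply card_le_card
    intro x hx
    rw [mem_filter]
    refine ⟨mem_univ _, ?_⟩
    by_cases hxa : x = a0
    · rw [hxa, sub_self, abs_zero]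
      exact hKD
    · rw [abs_le]
      have e1 := hc x a0 (hA x hx a0 ha0 hxa)
      have e2 := hc a0 x (hA a0 ha0 x hx (Ne.symm hxa))
      constructor <;> linarith
  · intro a0
    refine le_trans ?_ (hdens a0)
    rw [Nat.card_eq_fintype_card, Fintype.card_subtype]
    norm_cast
    apply card_le_card
    intro x hx
    rw [mem_filter] at hx ⊢
    refine ⟨mem_univ _, ?_⟩
    rw [abs_le]
    have e1 := hc x a0 hx.2.2
    have e2 := hc a0 x hx.2.1
    constructor <;> linarith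

end

/-- **Theorem II**, with an explicit power of `D` -/
theorem theoremII_powX : ∀ D : ℝ, 2 ≤ D → ∀ {n : ℕ}
    (r : Fin n → Fin n → Prop), IsPoset r → (∀ x, vr r x ≤ D ^ 2) →
    (∀ s : Finset (Fin n), IsAnti r s → (s.card : ℝ) ≤ D ^ 245) ∧
    (∀ x : Fin n, (Nat.card {y : Fin n // ¬ r x y ∧ ¬ r y x} : ℝ) ≤ D ^ 245) := by
  obtain ⟨K, hK, hK2, h⟩ := theoremII_polyX
  intro D hD n r hr hv
  have h1 : K * D ^ 48 ≤ D ^ 245 := by
    rw [show D ^ 245 = D ^ 197 * D ^ 48 by ring]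
    have : K ≤ D ^ 197 := hK2.trans (pow_le_pow_left₀ (by norm_num) hD 197)
    exact mul_le_mul_of_nonneg_right this (by positivity)
  obtain ⟨h2, h3⟩ := h D (by linarith) r hr hv
  exact ⟨fun s hs => (h2 s hs).trans h1, fun x => (h3 x).trans h1⟩

/-- unbalanced posets have bounded width and bounded incomparability degrees -/
theorem unb_boundX : ∀ ε : ℝ, 0 < ε → ε ≤ 1 / 2 →
    ∀ {n : ℕ} (r : Fin n → Fin n → Prop), IsPoset r → Unb ε r →
    (∀ s : Finset (Fin n), IsAnti r s → (s.card : ℝ) ≤ (1 / ε) ^ (360000000 / ε ^ 4)) ∧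
    (∀ x, (Nat.card {y : Fin n // ¬ r x y ∧ ¬ r y x} : ℝ) ≤ (1 / ε) ^ (360000000 / ε ^ 4)) := by
  have hI' := @theoremI_polyX
  have hq := @theoremII_powX
  obtain ⟨p, hpd⟩ : ∃ p : ℝ, p = 1459457 := ⟨_, rfl⟩
  rw [← hpd] at hI'
  have hp : 1 ≤ p := by rw [hpd]; norm_num
  intro ε hε hε2 n r hr hU
  have hb2 : 2 ≤ 1 / ε := by
    rw [le_div_iff₀ hε]; linarith
  have hb0 : 0 < 1 / ε := by positivity
  have hε1 : ε ≤ 1 := by linarith
  have hε4 : ε ^ 4 ≤ 1 := pow_le_one₀ hε.le hε1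
  have hε4p : 0 < ε ^ 4 := by positivity
  have hD2 : 2 ≤ (1 / ε) ^ (p / ε ^ 4) := by
    have h1 : (1 : ℝ) ≤ p / ε ^ 4 := by
      rw [le_div_iff₀ hε4p]; linarith
    calc (2 : ℝ) ≤ 1 / ε := hb2
      _ = (1 / ε) ^ (1 : ℝ) := (Real.rpow_one _).symm
      _ ≤ _ := Real.rpow_le_rpow_of_exponent_le (by linarith) h1
  have hle : ((1 / ε) ^ (p / ε ^ 4)) ^ 245 ≤ (1 / ε) ^ (360000000 / ε ^ 4) := by
    rw [← Real.rpow_natCast, ← Real.rpow_mul hb0.le]
    apply Real.rpow_le_rpow_of_exponent_le (by linarith)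
    rw [div_mul_eq_mul_div]
    apply div_le_div_of_nonneg_right _ hε4p.le
    rw [hpd]
    norm_num
  have h2 := hq _ hD2 r hr (hI' ε hε hε2 r hr hU)
  exact ⟨fun s hs => (h2.1 s hs).trans hle, fun x => (h2.2 x).trans hle⟩

/-- the rate -/
theorem deltaW_rateX : ∀ ε : ℝ, 0 < ε → ε ≤ 1 / 2 →
    ∀ w : ℕ, (1 / ε) ^ (360000000 / ε ^ 4) < w → 1 / 2 - ε ≤ deltaW w := by
  have h := @unb_boundX
  intro ε hε hε2 w hw
  unfold deltaW
  apply le_csInf
  · obtain ⟨n, r, h1, h2⟩ := exists_width w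
    exact ⟨_, n, r, h1, h2, rfl⟩
  · rintro d ⟨n, r, h1, ⟨⟨s, hs1, hs2⟩, h3⟩, rfl⟩
    by_contra hcon
    push Not at hcon
    have hU := Pool.Agent.Helper11.KSStruct.unb_of_balance r h1 hε hcon.le
    rw [min_eq_left hε2] at hU
    have := (h ε hε hε2 r h1 hU).1 s hs2
    rw [hs1] at this
    linarith

end Pool.Agent.KSR
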