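import Pool.Agent.KSX.Num
import Pool.Agent.KSX.Rate

set_option autoImplicit false

/-!
# Explicit bounds for the balance constants
-/

open Pool.Agent.Helper1.Balance

namespace Pool.Agent.KSX

/-- the upper bound for `w ≥ 2 ^ 2 ^ 20`, with the size of `log w` -/
theorem upper_large {w : ℕ} (hw : 2 ^ 2 ^ 20 ≤ w) :
    (2 : ℝ) ^ 19 ≤ Real.log w ∧ deltaW w ≤ 1 / 2 - 1 / (Real.log w) ^ 9000 := by
  obtain ⟨M, hM⟩ : ∃ M : ℕ, M = 2 ^ 20 := ⟨_, rfl⟩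
  rw [← hM] at hw
  have hw0 : w ≠ 0 := by
    have : 0 < 2 ^ M := by positivity
    omega
  obtain ⟨L, hL⟩ : ∃ L, L = Nat.log 2 w := ⟨_, rfl⟩
  have hLb : M ≤ L := by
    rw [hL]
    exact Nat.le_log_of_pow_le (by norm_num) hw
  have hL20 : 2 ^ 20 ≤ L := by rw [← hM]; exact hLb
  have hwl : 2 ^ L ≤ w := by rw [hL]; exact Nat.pow_log_le_self 2 hw0
  have hwu : w < 2 ^ (L + 1) := by rw [hL]; exact Nat.lt_pow_succ_log_self (by norm_num) w
  obtain ⟨K, hK1, hK2, hK⟩ := construct hL20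
  have h2K : 0 < 2 * K := by omega
  have hL2 : 2 ≤ L := le_trans (by norm_num) hL20
  have hpl : 2 * L ^ 37 * 2 ^ (L / 2) ≤ 2 ^ L := by
    have h1 : 2 * L ^ 37 ≤ 2 ^ (L / 2) := by
      refine le_trans ?_ (pow_le hL20)
      calc 2 * L ^ 37 ≤ L * L ^ 37 := Nat.mul_le_mul_right _ hL2
        _ = L ^ 38 := by rw [← pow_succ']
        _ ≤ L ^ 22200 := Nat.pow_le_pow_right (by omega) (by norm_num)
    calc 2 * L ^ 37 * 2 ^ (L / 2) ≤ 2 ^ (L / 2) * 2 ^ (L / 2) := Nat.mul_le_mul_right _ h1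
      _ = 2 ^ (L / 2 + L / 2) := by rw [← pow_add]
      _ ≤ 2 ^ L := Nat.pow_le_pow_right (by norm_num) (by omega)
  have hN1 : 2 ^ (L / 2) ≤ w / (2 * K) := by
    rw [Nat.le_div_iff_mul_le h2K]
    calc 2 ^ (L / 2) * (2 * K) ≤ 2 ^ (L / 2) * (2 * L ^ 37) :=
          Nat.mul_le_mul_left _ (Nat.mul_le_mul_left 2 hK2)
      _ = 2 * L ^ 37 * 2 ^ (L / 2) := by ring
      _ ≤ 2 ^ L := hpl
      _ ≤ w := hwl
  have hN2 : w / (2 * K) ≤ 2 ^ L := by
    have h1 : w / (2 * K) ≤ w / 2 := Nat.div_le_div_left (by omega) (by norm_num)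
    have h2 : w / 2 < 2 ^ L := by
      rw [Nat.div_lt_iff_lt_mul (by norm_num)]
      rw [pow_succ] at hwu
      exact hwu
    omega
  have hr := hK (w / (2 * K)) (w % (2 * K)) hN1 hN2 (Nat.mod_lt _ h2K)
  rw [Nat.div_add_mod] at hr
  have hLR : (2 : ℝ) ^ 20 ≤ L := by exact_mod_cast hL20
  have hLpos : (0 : ℝ) < L := lt_of_lt_of_le (by norm_num) hLR
  have hwR : (0 : ℝ) < w := by
    have : 0 < w := Nat.pos_of_ne_zero hw0
    exact_mod_cast this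
  have hlog : (L : ℝ) * Real.log 2 ≤ Real.log w := by
    rw [← Real.log_pow]
    apply Real.log_le_log (by positivity)
    exact_mod_cast hwl
  have hlog2 := Real.log_two_gt_d9
  have hLlog : (L : ℝ) ≤ 2 * Real.log w := by nlinarith
  obtain ⟨x, hx⟩ : ∃ x : ℝ, x = Real.log w := ⟨_, rfl⟩
  rw [← hx] at hLlog ⊢
  have hx19 : (2 : ℝ) ^ 19 ≤ x := by
    have : (2 : ℝ) ^ 20 = 2 * 2 ^ 19 := by norm_num
    linarith
  refine ⟨hx19, hr.trans ?_⟩
  have hx1 : 1 ≤ x := le_trans (by norm_num) hx19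
  have h1 : (2 : ℝ) ^ 8362 ≤ x ^ 441 := by
    calc (2 : ℝ) ^ 8362 ≤ 2 ^ (19 * 441) := pow_le_pow_right₀ (by norm_num) (by norm_num)
      _ = (2 ^ 19) ^ 441 := by rw [pow_mul]
      _ ≤ x ^ 441 := pow_le_pow_left₀ (by norm_num) hx19 441
  have h2 : (L : ℝ) ^ 8362 ≤ x ^ 9000 := by
    calc (L : ℝ) ^ 8362 ≤ (2 * x) ^ 8362 := pow_le_pow_left₀ hLpos.le hLlog _
      _ = 2 ^ 8362 * x ^ 8362 := by rw [mul_pow]
      _ ≤ x ^ 441 * x ^ 8362 := mul_le_mul_of_nonneg_right h1 (by positivity)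
      _ = x ^ (441 + 8362) := by rw [← pow_add]
      _ ≤ x ^ 9000 := pow_le_pow_right₀ hx1 (by norm_num)
  have h3 : 1 / x ^ 9000 ≤ 1 / (L : ℝ) ^ 8362 := one_div_le_one_div_of_le (by positivity) h2
  linarith

/-- `log 3 ≥ 17 / 16` -/
theorem log_three_ge : (17 : ℝ) / 16 ≤ Real.log 3 := by
  rw [Real.le_log_iff_exp_le (by norm_num)]
  have h1 : Real.exp (17 / 16) = Real.exp 1 * Real.exp (1 / 16) := by
    rw [← Real.exp_add]; norm_num
  have h2 := Real.exp_one_lt_d9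
  have h3 : Real.exp (1 / 16) ≤ 16 / 15 := by
    have h4 : 1 - 1 / 16 ≤ Real.exp (-(1 / 16)) := by
      have := Real.add_one_le_exp (-(1 / 16 : ℝ))
      linarith
    rw [Real.exp_neg] at h4
    have h5 : (0 : ℝ) < Real.exp (1 / 16) := Real.exp_pos _
    have h6 : (1 - 1 / 16) * Real.exp (1 / 16) ≤ 1 := by
      have := mul_le_mul_of_nonneg_right h4 h5.le
      rwa [inv_mul_cancel₀ h5.ne'] at this
    linarith
  rw [h1]
  have h5 : (0 : ℝ) < Real.exp 1 := Real.exp_pos _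
  nlinarith [mul_le_mul_of_nonneg_left h3 h5.le]

/-- a large power -/
theorem rpow_ge {l : ℝ} (hl : 17 / 16 ≤ l) {T : ℕ} (hT : T ≤ 62500000) :
    (2 : ℝ) ^ T ≤ l ^ ((10 : ℝ) ^ 9) := by
  have h2 : (2 : ℝ) ≤ l ^ 16 := by
    calc (2 : ℝ) ≤ (17 / 16) ^ 16 := by norm_num
      _ ≤ l ^ 16 := pow_le_pow_left₀ (by norm_num) hl 16
  have h3 : (2 : ℝ) ^ T ≤ l ^ (16 * T) := by
    rw [pow_mul]
    exact pow_le_pow_left₀ (by norm_num) h2 T
  refine h3.trans ?_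
  rw [← Real.rpow_natCast]
  apply Real.rpow_le_rpow_of_exponent_le (by linarith)
  have h4 : (T : ℝ) ≤ 62500000 := by exact_mod_cast hT
  push_cast
  linarith

/-- the upper bound for all widths -/
theorem upper_all {w : ℕ} (hw : 3 ≤ w) :
    deltaW w ≤ 1 / 2 - 1 / (10 ^ 9 * (Real.log w) ^ ((10 : ℝ) ^ 9)) := by
  have hwR : (3 : ℝ) ≤ w := by exact_mod_cast hw
  have hl : 17 / 16 ≤ Real.log w :=
    log_three_ge.trans (Real.log_le_log (by norm_num) hwR)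
  obtain ⟨x, hx⟩ : ∃ x : ℝ, x = Real.log w := ⟨_, rfl⟩
  rw [← hx] at hl ⊢
  have hx1 : 1 ≤ x := by linarith
  have hp : 0 < x ^ ((10 : ℝ) ^ 9) := Real.rpow_pos_of_pos (by linarith) _
  rcases le_or_gt (2 ^ 2 ^ 20) w with hc | hc
  · have h := (upper_large hc).2
    rw [← hx] at h
    refine h.trans ?_
    have h1 : x ^ 9000 ≤ 10 ^ 9 * x ^ ((10 : ℝ) ^ 9) := by
      have h2 : x ^ 9000 ≤ x ^ ((10 : ℝ) ^ 9) := by
        rw [← Real.rpow_natCast]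
        exact Real.rpow_le_rpow_of_exponent_le hx1 (by norm_num)
      linarith
    have h3 := one_div_le_one_div_of_le (by positivity) h1
    linarith
  · refine (main w (by omega)).trans ?_
    obtain ⟨M, hM⟩ : ∃ M : ℕ, M = 2 ^ 20 := ⟨_, rfl⟩
    rw [← hM] at hc
    have h0 : (w : ℝ) ≤ 2 ^ M := by exact_mod_cast hc.le
    have h1 := h0.trans (rpow_ge hl (T := M) (by rw [hM]; norm_num))
    have h2 : 12 * ((w : ℝ) - 1) ≤ 10 ^ 9 * x ^ ((10 : ℝ) ^ 9) := by linarith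
    have h3 := one_div_le_one_div_of_le (by linarith) h2
    linarith

end Pool.Agent.KSX
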